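import Pool.Agent.U508.TD.Stm2
import Pool.Agent.U333.TD.COND

/-!
# Project TD, package MOM

The number of particles with a given momentum, from package COND (helper333) by a gauge
transformation.
-/

set_option autoImplicit false

open MeasureTheory UnitAddTorus
open scoped ENNReal ComplexConjugate

namespace Pool.Agent.U508.TD

open Pool.Agent.W761.CB Pool.Agent.H751R2.LHY Pool.Agent.U333.TD

noncomputable section

namespace MOM

variable {L : ℝ} [hL : Fact (0 < L)]

theorem toC (z : UnitAddCircle) : AddCircle.toCircle (sc L z) = AddCircle.toCircle z := by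
  obtain ⟨r, rfl⟩ := QuotientAddGroup.mk_surjective z
  have hL0 : L ≠ 0 := ne_of_gt hL.out
  have h1 : sc L ((r : ℝ) : UnitAddCircle) = ((r * (1⁻¹ * L) : ℝ) : AddCircle L) :=
    AddCircle.equivAddCircle_apply_mk (1 : ℝ) L one_ne_zero hL0 r
  change AddCircle.toCircle (sc L ((r : ℝ) : UnitAddCircle)) =
    AddCircle.toCircle ((r : ℝ) : UnitAddCircle)
  rw [h1, AddCircle.toCircle_apply_mk, AddCircle.toCircle_apply_mk]
  congr 1
  field_simp

theorem four (k : ℤ) (z : UnitAddCircle) :
    (fourier k (sc L z) : ℂ) = fourier k z := by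
  rw [fourier_apply, fourier_apply, ← map_zsmul, toC]

/-- the gauge factor -/
def ga (L : ℝ) [Fact (0 < L)] {N : ℕ} (i : Fin N) (n : Mom) (x : Fin N → Tor 3 L) : ℂ :=
  ∏ a, (fourier (-(n a)) (x i a) : ℂ)

theorem ga_norm {N : ℕ} (i : Fin N) (n : Mom) (x : Fin N → Tor 3 L) : ‖ga L i n x‖ = 1 := by
  simp only [ga, norm_prod, fourier_apply, Circle.norm_coe, Finset.prod_const_one]

theorem ga_meas {N : ℕ} (i : Fin N) (n : Mom) :
    Measurable (ga L i n : (Fin N → Tor 3 L) → ℂ) := by
  unfold ga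
  refine Finset.measurable_prod _ fun a _ => ?_
  exact (fourier (-(n a))).continuous.measurable.comp
    ((measurable_pi_apply a).comp (measurable_pi_apply i))

theorem ga_mul {N : ℕ} (i : Fin N) (n : Mom) (x : Fin N → Tor 3 L) (y : Tor 3 L) :
    conj (ga L i n x) * ga L i n (Function.update x i y) = ∏ a, (fourier (n a) (x i a - y a) : ℂ) := by
  unfold ga
  rw [map_prod, ← Finset.prod_mul_distrib]
  refine Finset.prod_congr rfl fun a _ => ?_
  rw [Function.update_self, ← fourier_neg, neg_neg, fourier_apply, fourier_apply, fourier_apply,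
    smul_sub, sub_eq_add_neg, AddCircle.toCircle_add, Circle.coe_mul, neg_smul]

theorem dn_ga {N : ℕ} (i : Fin N) (n : Mom) (Ψ : (Fin N → Tor 3 L) → ℂ) (y : Cfg N) :
    dn L (fun x => Ψ x * ga L i n x) y =
      mFourier (-unc (Pi.single i n : Fin N → Mom)) y * dn L Ψ y := by
  have h1 : ga L i n (up L y) = mFourier (-unc (Pi.single i n : Fin N → Mom)) y := by
    simp only [mFourier, ContinuousMap.coe_mk, ga, up, four]
    rw [Fintype.prod_prod_type, Finset.prod_eq_single i]
    · simp [unc]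
    · intro j _ hj
      simp [unc, hj]
    · simp
  simp only [dn]
  rw [h1]
  ring

theorem coef_ga {N : ℕ} (i : Fin N) (n : Mom) (Ψ : (Fin N → Tor 3 L) → ℂ) (M : Fin N → Mom) :
    coef (dn L (fun x => Ψ x * ga L i n x)) M = coef (dn L Ψ) (M + Pi.single i n) := by
  unfold coef mFourierCoeff
  refine integral_congr_ae (Filter.Eventually.of_forall fun t => ?_)
  have h1 : -unc (M + Pi.single i n) = -unc M + -unc (Pi.single i n : Fin N → Mom) := by
    funext p
    simp [unc]
    ring
  simp only [smul_eq_mul]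
  rw [dn_ga, h1, mFourier_add]
  ring

theorem one_n (h1 : S_SCALE) {N : ℕ} {Ψ : (Fin N → Tor 3 L) → ℂ} (hm : Measurable Ψ)
    (hn : ∫⁻ x, ‖Ψ x‖ₑ ^ 2 = 1) (n : Mom) (i : Fin N) :
    ∫ x, ∫ y, ((starRingEnd ℂ) (Ψ x) * Ψ (Function.update x i y) *
      ∏ a, (fourier (n a) (x i a - y a) : ℂ)).re =
      L ^ 3 * ∑' M : Fin N → Mom, (if M i = n then ‖coef (dn L Ψ) M‖ ^ 2 else 0) := by
  have h2 := Pool.Agent.U333.TD.one h1 (Ψ := fun x => Ψ x * ga L i n x) (hm.mul (ga_meas i n))
    (by
      rw [← hn]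
      refine lintegral_congr fun x => ?_
      rw [enorm_mul]
      have : ‖ga L i n x‖ₑ = 1 := by
        rw [← ofReal_norm, ga_norm, ENNReal.ofReal_one]
      rw [this, mul_one]) i
  have h3 : ∀ (x : Fin N → Tor 3 L) (y : Tor 3 L),
      ((starRingEnd ℂ) (Ψ x * ga L i n x) *
        (Ψ (Function.update x i y) * ga L i n (Function.update x i y))).re =
      ((starRingEnd ℂ) (Ψ x) * Ψ (Function.update x i y) *
        ∏ a, (fourier (n a) (x i a - y a) : ℂ)).re := by
    intro x y
    rw [← ga_mul, map_mul]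
    congr 1
    ring
  simp only [h3] at h2
  rw [h2]
  congr 1
  rw [← (Equiv.addRight (Pi.single i n : Fin N → Mom)).tsum_eq
    (fun M : Fin N → Mom => if M i = n then ‖coef (dn L Ψ) M‖ ^ 2 else 0)]
  refine tsum_congr fun M => ?_
  simp only [Equiv.coe_addRight, Pi.add_apply, Pi.single_eq_same, add_eq_right, coef_ga]

end MOM

/-- **MOM** -/
theorem mom (h1 : S_SCALE) : S_MOM := by
  intro L hL N Ψ n hm hn
  have hL0 : 0 < L := hL.out
  have hψ : MemLp (dn L Ψ) 2 :=
    Pool.Agent.U333.TD.memLp_of (Pool.Agent.U333.TD.dn_meas h1 hm)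
      (Pool.Agent.U333.TD.dn_norm h1 hm hn)
  have hsum := (Gn.coef_hasSum hψ).summable
  have hsi : ∀ i ∈ (Finset.univ : Finset (Fin N)), Summable fun M : Fin N → Mom =>
      (if M i = n then ‖coef (dn L Ψ) M‖ ^ 2 else 0) := by
    intro i _
    refine Summable.of_nonneg_of_le (fun M => ?_) (fun M => ?_) hsum
    · split_ifs <;> positivity
    · split_ifs
      · exact le_rfl
      · positivity
  rw [momN]
  simp only [MOM.one_n h1 hm hn n]
  rw [← Finset.mul_sum, ← mul_assoc, inv_mul_cancel₀ (by positivity), one_mul,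
    ← Summable.tsum_finsetSum hsi, occE, ENNReal.tsum_toReal_eq (fun _ => ENNReal.ofReal_ne_top)]
  refine tsum_congr fun M => ?_
  rw [ENNReal.toReal_ofReal (by positivity), ← Finset.sum_filter, Finset.sum_const, nsmul_eq_mul]

end

end Pool.Agent.U508.TD

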