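import Pool.Agent.U508.TD.Stm
import Pool.Agent.H464R2.LHY.Int
import Pool.Agent.H51R2.LHY.Per

/-!
# Package POT (helper59): the two forms of the potential energy agree
-/

set_option autoImplicit false

open MeasureTheory UnitAddTorus
open scoped ENNReal

namespace Pool.Agent.U508.TD

open Pool.Agent.W761.CB Pool.Agent.H751R2.LHY

noncomputable section

/-- the potential as a function on the unit torus -/
def potW (L : ℝ) [Fact (0 < L)] (v : ℝ → ℝ≥0∞) (d : T3) : ℝ≥0∞ :=
  v (√(∑ c, ‖sc L (d c)‖ ^ 2))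

theorem sc_coe (L : ℝ) [Fact (0 < L)] (t : ℝ) :
    sc L (t : UnitAddCircle) = ((L * t : ℝ) : AddCircle L) := by
  rw [sc, AddCircle.equivAddCircle_apply_mk]
  congr 1
  rw [inv_one, one_mul, mul_comm]

theorem norm_sc (L : ℝ) [hL : Fact (0 < L)] (t : ℝ) (ht : |t| ≤ 1 / 2) :
    ‖sc L (t : UnitAddCircle)‖ = |L * t| := by
  have h0 := hL.out
  rw [sc_coe, AddCircle.norm_coe_eq_abs_iff _ h0.ne', abs_mul, abs_of_pos h0]
  nlinarith

theorem rep_half (d : T3) : ∃ x : Fin 3 → ℝ, h51pr x = d ∧ ∀ a, |x a| ≤ 1 / 2 := by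
  refine ⟨fun a => h51sec d a - round (h51sec d a), ?_, fun a => abs_sub_round _⟩
  rw [← h51pr_sec d]
  funext a
  simp only [h51pr, h51pr_sec]
  rw [AddCircle.coe_sub]
  have : ((round (h51sec d a) : ℝ) : UnitAddCircle) = 0 := by
    rw [AddCircle.coe_eq_zero_iff]
    exact ⟨round (h51sec d a), by simp⟩
  rw [this, sub_zero]

theorem el_meas : Measurable (el : (Fin 3 → ℝ) → ℝ) := by
  unfold el
  fun_prop

theorem perPot_ae (L : ℝ) [hL : Fact (0 < L)] (v : ℝ → ℝ≥0∞) (R : ℝ) (hv : Measurable v)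
    (hR : ∀ r, R < r → v r = 0) (hRL : 2 * R < L) (hi : ∫⁻ z : Fin 3 → ℝ, v (el z) ≠ ⊤) :
    perPot (fun z => (v (el z)).toReal) L =ᵐ[volume] potW L v := by
  classical
  have h0 := hL.out
  have hve : Measurable fun z : Fin 3 → ℝ => v (el z) := hv.comp el_meas
  set u : (Fin 3 → ℝ) → ℝ := fun z => if v (el z) = ⊤ then 1 else 0 with hu
  have hum : Measurable u :=
    Measurable.ite (hve (measurableSet_singleton ⊤)) measurable_const measurable_const
  have hu0 : ∫⁻ x : Fin 3 → ℝ, ENNReal.ofReal (u x) * 1 = 0 := by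
    rw [lintegral_eq_zero_iff (by fun_prop)]
    filter_upwards [ae_lt_top hve hi] with z hz
    simp [hu, hz.ne]
  have hp := perPot_lint hum h0 (fun _ => 1) measurable_const
  rw [hu0, mul_zero] at hp
  simp only [mul_one] at hp
  rw [lintegral_eq_zero_iff (perPot_meas hum L)] at hp
  filter_upwards [hp] with d hd
  obtain ⟨x, hx, hx2⟩ := rep_half d
  have hz0 : x + h51zr 0 = x := by
    funext a
    simp [h51zr]
  have hne : v (el (L • x)) ≠ ⊤ := by
    rw [← hx, h51repr, Pi.zero_apply, ENNReal.tsum_eq_zero] at hd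
    have := hd 0
    rw [hz0] at this
    intro hT
    simp [hu, hT] at this
  have hel : el (L • x) = √(∑ c, ‖sc L (d c)‖ ^ 2) := by
    rw [el]
    congr 1
    refine Finset.sum_congr rfl fun c _ => ?_
    rw [← hx]
    simp only [h51pr]
    rw [norm_sc L _ (hx2 c), sq_abs]
    rfl
  rw [potW, ← hel, ← hx, h51repr, tsum_eq_single 0]
  · rw [hz0, ENNReal.ofReal_toReal hne]
  · intro z hz
    obtain ⟨a, ha⟩ := Function.ne_iff.1 hz
    rw [hR, ENNReal.toReal_zero, ENNReal.ofReal_zero]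
    have h1 : (1 : ℝ) ≤ |(z a : ℝ)| := by
      have : (1 : ℤ) ≤ |z a| := Int.one_le_abs ha
      exact_mod_cast this
    have h2 : 1 / 2 ≤ |x a + z a| := by
      have h3 : |(z a : ℝ)| ≤ |x a + z a| + |x a| := by
        have : (z a : ℝ) = (x a + z a) - x a := by ring
        calc |(z a : ℝ)| = |(x a + z a) - x a| := by rw [← this]
          _ ≤ _ := abs_sub _ _
      have := hx2 a
      linarith
    have h4 : L / 2 ≤ el (L • (x + h51zr z)) := by
      rw [el]
      apply Real.le_sqrt_of_sq_le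
      have h5 : ((L • (x + h51zr z)) a) ^ 2 ≤ ∑ c, ((L • (x + h51zr z)) c) ^ 2 :=
        Finset.single_le_sum (f := fun c => ((L • (x + h51zr z)) c) ^ 2)
          (fun c _ => sq_nonneg _) (Finset.mem_univ a)
      refine le_trans ?_ h5
      rw [← sq_abs ((L • (x + h51zr z)) a)]
      apply pow_le_pow_left₀ (by linarith)
      simp only [Pi.smul_apply, Pi.add_apply, h51zr, smul_eq_mul]
      rw [abs_mul, abs_of_pos h0]
      nlinarith
    linarith

theorem potE_congr' {N : ℕ} {W W' : T3 → ℝ≥0∞} (h : W =ᵐ[volume] W') (ψ : Cfg N → ℂ) :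
    potE W ψ = potE W' ψ := by
  unfold potE
  refine lintegral_congr_ae ?_
  have hall : ∀ᵐ x : Cfg N, ∀ i j : Fin N, i ≠ j →
      W (pos x i - pos x j) = W' (pos x i - pos x j) := by
    rw [ae_all_iff]; intro i
    rw [ae_all_iff]; intro j
    by_cases hij : i = j
    · exact Filter.Eventually.of_forall (fun x h => absurd hij h)
    · have := (mp_diff (N := N) hij).quasiMeasurePreserving.ae h
      filter_upwards [this] with x hx _
      exact hx
  filter_upwards [hall] with x hx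
  congr 1
  refine Finset.sum_congr rfl (fun i _ => Finset.sum_congr rfl (fun j hj => ?_))
  exact hx i j (Finset.mem_filter.1 hj).2.ne

theorem potW_up (L : ℝ) [Fact (0 < L)] {N : ℕ} (v : ℝ → ℝ≥0∞) (y : Cfg N) (i j : Fin N) :
    potW L v (pos y i - pos y j) = v (tdist (up L y i) (up L y j)) := by
  rw [potW, tdist]
  simp only [pos, up, Pi.sub_apply, map_sub]

theorem tdist_meas (L : ℝ) [Fact (0 < L)] {N : ℕ} (i j : Fin N) :
    Measurable fun x : Fin N → Tor 3 L => tdist (x i) (x j) := by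
  unfold tdist
  have : ∀ c : Fin 3, Measurable fun x : Fin N → Tor 3 L => ‖x i c - x j c‖ := by
    intro c
    have h1 : Continuous fun x : Fin N → Tor 3 L => ‖x i c - x j c‖ := by fun_prop
    exact h1.measurable
  have h2 : Measurable fun x : Fin N → Tor 3 L => ∑ c, ‖x i c - x j c‖ ^ 2 :=
    Finset.measurable_sum _ fun c _ => (this c).pow_const 2
  exact Real.continuous_sqrt.measurable.comp h2

theorem pot (h1 : S_SCALE) : S_POT := by
  intro L hL N v R Ψ hv hR hRL hi hΨ
  rw [potE_congr' (perPot_ae L v R hv hR hRL hi)]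
  obtain ⟨hup, -, hmap⟩ := h1 L N
  have hL0 := hL.out
  have hLp : 0 < L ^ (3 * N) := pow_pos hL0 _
  set Fn : (Fin N → Tor 3 L) → ℝ≥0∞ := fun x =>
    (∑ i : Fin N, ∑ j ∈ Finset.univ.filter fun j => i < j, v (tdist (x i) (x j))) *
      ‖Ψ x‖ₑ ^ 2 with hF
  have hFm : Measurable Fn := by
    refine Measurable.mul ?_ (hΨ.enorm.pow_const 2)
    exact Finset.measurable_sum _ fun i _ => Finset.measurable_sum _ fun j _ =>
      hv.comp (tdist_meas L i j)
  have e1 : ∫⁻ y : Cfg N, Fn (up L y) =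
      ENNReal.ofReal ((L ^ (3 * N))⁻¹) * ∫⁻ x, Fn x := by
    rw [← lintegral_map hFm hup, hmap, lintegral_smul_measure, smul_eq_mul]
  have e2 : potE (potW L v) (dn L Ψ) = ENNReal.ofReal (L ^ (3 * N)) * ∫⁻ y : Cfg N, Fn (up L y) := by
    have hm : Measurable fun y : Cfg N => Fn (up L y) := hFm.comp hup
    rw [← lintegral_const_mul _ hm]
    unfold potE
    refine lintegral_congr fun y => ?_
    have e3 : ENNReal.ofReal (‖dn L Ψ y‖ ^ 2) =
        ENNReal.ofReal (L ^ (3 * N)) * ‖Ψ (up L y)‖ₑ ^ 2 := by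
      rw [dn, norm_mul, mul_pow, Complex.norm_real, Real.norm_of_nonneg (Real.sqrt_nonneg _),
        Real.sq_sqrt hLp.le, ENNReal.ofReal_mul hLp.le, ENNReal.ofReal_pow (norm_nonneg _),
        ofReal_norm]
    rw [e3, hF]
    simp only [potW_up]
    ring
  rw [e2, e1, ← mul_assoc, ← ENNReal.ofReal_mul hLp.le, mul_inv_cancel₀ hLp.ne',
    ENNReal.ofReal_one, one_mul]
  rfl

end

end Pool.Agent.U508.TD
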