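import Pool.Agent.U508.TD.Stm

/-!
# Project TD, package SUPK (helper873)
-/

set_option autoImplicit false

open Filter Topology
open scoped ENNReal

namespace Pool.Agent.U508.TD.SUPKaux

/-- `2^(k+1) sin(θ 2^(-k) / 2)` -/
noncomputable def h (θ : ℝ) (k : ℕ) : ℝ := 2 ^ k * (2 * Real.sin (θ * (2 : ℝ)⁻¹ ^ k / 2))

lemma h_succ (θ : ℝ) (k : ℕ) : |h θ k| ≤ |h θ (k + 1)| := by
  have e : θ * (2 : ℝ)⁻¹ ^ k / 2 = 2 * (θ * (2 : ℝ)⁻¹ ^ (k + 1) / 2) := by
    rw [pow_succ]; ring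
  unfold h
  rw [e, Real.sin_two_mul]
  set u := θ * (2 : ℝ)⁻¹ ^ (k + 1) / 2
  rw [abs_mul, abs_mul, abs_mul (2 ^ (k + 1) : ℝ), abs_mul 2 (Real.sin u), abs_mul, abs_mul 2,
    abs_of_pos (show (0 : ℝ) < 2 by norm_num), abs_of_pos (show (0 : ℝ) < 2 ^ k by positivity),
    abs_of_pos (show (0 : ℝ) < 2 ^ (k + 1) by positivity), pow_succ]
  have h1 := Real.abs_cos_le_one u
  have h2 := abs_nonneg (Real.sin u)
  have h3 : 0 < (2 : ℝ) ^ k := by positivity
  have h4 : |Real.sin u| * |Real.cos u| ≤ |Real.sin u| := by nlinarith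
  nlinarith [mul_le_mul_of_nonneg_left h4 h3.le]

lemma h_tend (θ : ℝ) : Tendsto (fun k => h θ k) atTop (𝓝 θ) := by
  have h1 : HasDerivAt Real.sin 1 0 := by simpa using Real.hasDerivAt_sin 0
  have h1' : HasDerivAt (fun t : ℝ => Real.sin (θ * t)) θ 0 := by
    have hm : HasDerivAt (fun t : ℝ => θ * t) θ 0 := by
      simpa using (hasDerivAt_id (0 : ℝ)).const_mul θ
    have h1'' : HasDerivAt Real.sin 1 (θ * 0) := by simpa using h1
    have h5 := HasDerivAt.comp (0 : ℝ) h1'' hm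
    rw [one_mul] at h5
    exact h5
  have h2 := h1'.tendsto_slope_zero
  have h3 : Tendsto (fun k : ℕ => (2 : ℝ)⁻¹ ^ k / 2) atTop (𝓝[≠] 0) := by
    rw [tendsto_nhdsWithin_iff]
    constructor
    · have := (tendsto_pow_atTop_nhds_zero_of_lt_one (r := (2 : ℝ)⁻¹) (by norm_num)
        (by norm_num)).div_const 2
      simpa using this
    · exact Eventually.of_forall fun k => by
        simp only [Set.mem_compl_iff, Set.mem_singleton_iff]
        positivity
  have h4 := h2.comp h3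
  refine h4.congr fun k => ?_
  simp only [Function.comp, zero_add, smul_eq_mul, mul_zero, Real.sin_zero, sub_zero]
  unfold h
  rw [show θ * ((2 : ℝ)⁻¹ ^ k / 2) = θ * (2 : ℝ)⁻¹ ^ k / 2 by ring]
  rw [inv_div, inv_pow]
  field_simp

lemma term_eq (θ : ℝ) (k : ℕ) :
    (4 : ℝ≥0∞) ^ k * ENNReal.ofReal
      (‖Complex.exp ((θ * (2 : ℝ)⁻¹ ^ k : ℝ) * Complex.I) - 1‖ ^ 2) =
    ENNReal.ofReal (|h θ k| ^ 2) := by
  rw [mul_comm _ Complex.I, Complex.norm_exp_I_mul_ofReal_sub_one, Real.norm_eq_abs]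
  have h4 : (4 : ℝ≥0∞) ^ k = ENNReal.ofReal ((4 : ℝ) ^ k) := by
    rw [ENNReal.ofReal_pow (by norm_num)]
    congr 1
    norm_num
  rw [h4, ← ENNReal.ofReal_mul (by positivity)]
  congr 1
  unfold h
  rw [abs_mul (2 ^ k : ℝ), mul_pow, abs_of_pos (show (0 : ℝ) < 2 ^ k by positivity), ← pow_mul,
    mul_comm k 2, pow_mul]
  norm_num

theorem supk : Pool.Agent.U508.TD.S_SUPK := by
  intro ι _ θ a
  set F : ι → ℕ → ℝ≥0∞ := fun i k => ENNReal.ofReal (|h (θ i) k| ^ 2) * a i with hF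
  have hmono : ∀ i, Monotone (F i) := by
    intro i
    refine monotone_nat_of_le_succ fun k => ?_
    have h1 := h_succ (θ i) k
    exact mul_le_mul_left (ENNReal.ofReal_le_ofReal (pow_le_pow_left₀ (abs_nonneg _) h1 2)) _
  have hsup : ∀ i, ⨆ k, F i k = ENNReal.ofReal (θ i ^ 2) * a i := by
    intro i
    rw [hF]
    simp only
    rw [← ENNReal.iSup_mul]
    congr 1
    have hm : Monotone fun k => ENNReal.ofReal (|h (θ i) k| ^ 2) := by
      refine monotone_nat_of_le_succ fun k => ?_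
      exact ENNReal.ofReal_le_ofReal (pow_le_pow_left₀ (abs_nonneg _) (h_succ (θ i) k) 2)
    have ht : Tendsto (fun k => ENNReal.ofReal (|h (θ i) k| ^ 2)) atTop
        (𝓝 (ENNReal.ofReal (θ i ^ 2))) := by
      have := (ENNReal.continuous_ofReal.tendsto (|θ i| ^ 2)).comp (((h_tend (θ i)).abs).pow 2)
      rw [sq_abs] at this
      exact this
    exact tendsto_nhds_unique (tendsto_atTop_iSup hm) ht
  have e1 : ∀ k : ℕ, (4 : ℝ≥0∞) ^ k * ∑' i, ENNReal.ofReal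
      (‖Complex.exp ((θ i * (2 : ℝ)⁻¹ ^ k : ℝ) * Complex.I) - 1‖ ^ 2) * a i = ∑' i, F i k := by
    intro k
    rw [← ENNReal.tsum_mul_left]
    refine tsum_congr fun i => ?_
    rw [← mul_assoc, term_eq]
  simp_rw [e1]
  simp_rw [← hsup]
  simp_rw [ENNReal.tsum_eq_iSup_sum]
  rw [iSup_comm]
  refine iSup_congr fun s => ?_
  rw [ENNReal.finsetSum_iSup_of_monotone fun i => hmono i]

end Pool.Agent.U508.TD.SUPKaux

namespace Pool.Agent.U508.TD

/-- **SUPK** -/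
theorem supk : S_SUPK := SUPKaux.supk

end Pool.Agent.U508.TD
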