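import Pool.Agent.U508.TD.Stm

/-!
# The two forms of the kinetic energy agree
-/

set_option autoImplicit false

open Pool.Agent.W761.CB Pool.Agent.H751R2.LHY MeasureTheory UnitAddTorus
open scoped ENNReal

namespace Pool.Agent.U508.TD

noncomputable section

/-- the shift on the unit torus -/
def sh (L : ℝ) {N : ℕ} (i : Fin N) (c : Fin 3) (t : ℝ) : Cfg N :=
  fun p => if p = (i, c) then ((t / L : ℝ) : UnitAddCircle) else 0

theorem up_sh (L : ℝ) [hL : Fact (0 < L)] {N : ℕ} (i : Fin N) (c : Fin 3) (t : ℝ) (y : Cfg N) :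
    up L (y + sh L i c t) = Function.update (up L y) i (up L y i + ec L c t) := by
  have hL0 : L ≠ 0 := ne_of_gt hL.out
  funext j a
  by_cases hj : j = i
  · subst hj
    rw [Function.update_self]
    simp only [up, Pi.add_apply, map_add, ec, pr]
    congr 1
    by_cases ha : a = c
    · subst ha
      simp only [sh, if_true, Pi.single_eq_same]
      have := AddCircle.equivAddCircle_apply_mk (𝕜 := ℝ) 1 L one_ne_zero hL0 (t / L)
      rw [sc]
      refine Eq.trans this ?_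
      congr 1
      field_simp
    · simp only [sh]
      rw [if_neg (by
        intro h
        exact ha (Prod.ext_iff.mp h).2), Pi.single_eq_of_ne ha, map_zero]
      rfl
  · rw [Function.update_of_ne hj]
    simp only [up, Pi.add_apply, map_add, sh]
    rw [if_neg (by
        intro h
        exact hj (Prod.ext_iff.mp h).1), map_zero, add_zero]

theorem four_sh (L : ℝ) {N : ℕ} (i : Fin N) (c : Fin 3) (t : ℝ) (M : Fin N → Mom) :
    mFourier (unc M) (sh L i c t) =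
      Complex.exp ((2 * Real.pi * (M i c : ℝ) / L * t : ℝ) * Complex.I) := by
  show ∏ p : Fin N × Fin 3, fourier (unc M p) (sh L i c t p) = _
  rw [Finset.prod_eq_single (i, c)]
  · simp only [sh, if_true, unc]
    rw [fourier_coe_apply]
    congr 1
    push_cast
    ring
  · intro p _ hp
    simp only [sh, if_neg hp]
    rw [fourier_eval_zero]
  · intro h
    exact absurd (Finset.mem_univ _) h

theorem lint_up (h1 : S_SCALE) (L : ℝ) [hL : Fact (0 < L)] (N : ℕ)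
    (F : (Fin N → Tor 3 L) → ℝ≥0∞) (hF : Measurable F) :
    ∫⁻ y : Cfg N, F (up L y) = ENNReal.ofReal ((L ^ (3 * N))⁻¹) * ∫⁻ x, F x := by
  obtain ⟨hm, -, hmap⟩ := h1 L N
  rw [← lintegral_map hF hm, hmap, lintegral_smul_measure]
  rfl

theorem enorm_dn (L : ℝ) [hL : Fact (0 < L)] {N : ℕ} (z : ℂ) :
    ‖((Real.sqrt (L ^ (3 * N)) : ℝ) : ℂ) * z‖ₑ ^ 2 = ENNReal.ofReal (L ^ (3 * N)) * ‖z‖ₑ ^ 2 := by
  have h0 : 0 ≤ L ^ (3 * N) := pow_nonneg (le_of_lt hL.out) _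
  rw [enorm_mul, mul_pow]
  congr 1
  rw [← ofReal_norm, ← ENNReal.ofReal_pow (norm_nonneg _), Complex.norm_real,
    Real.norm_eq_abs, sq_abs, Real.sq_sqrt h0]

theorem cancelL (L : ℝ) [hL : Fact (0 < L)] (N : ℕ) (A : ℝ≥0∞) :
    ENNReal.ofReal (L ^ (3 * N)) * (ENNReal.ofReal ((L ^ (3 * N))⁻¹) * A) = A := by
  have h0 : 0 < L ^ (3 * N) := pow_pos hL.out _
  rw [← mul_assoc, ← ENNReal.ofReal_mul h0.le, mul_inv_cancel₀ h0.ne', ENNReal.ofReal_one, one_mul]

theorem lint_dn (h1 : S_SCALE) (L : ℝ) [hL : Fact (0 < L)] (N : ℕ)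
    (Ψ : (Fin N → Tor 3 L) → ℂ) (hΨ : Measurable Ψ) :
    ∫⁻ y : Cfg N, ‖dn L Ψ y‖ₑ ^ 2 = ∫⁻ x, ‖Ψ x‖ₑ ^ 2 := by
  have hF : Measurable fun x : Fin N → Tor 3 L => ‖Ψ x‖ₑ ^ 2 := hΨ.enorm.pow_const 2
  have : ∫⁻ y : Cfg N, ‖dn L Ψ y‖ₑ ^ 2 =
      ∫⁻ y : Cfg N, ENNReal.ofReal (L ^ (3 * N)) * ‖Ψ (up L y)‖ₑ ^ 2 := by
    refine lintegral_congr fun y => ?_
    exact enorm_dn L _
  have hc : Measurable fun y : Cfg N => ‖Ψ (up L y)‖ₑ ^ 2 := hF.comp (h1 L N).1
  rw [this, lintegral_const_mul _ hc,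
    lint_up h1 L N (fun x => ‖Ψ x‖ₑ ^ 2) hF, cancelL]

theorem lint_shift (h1 : S_SCALE) (L : ℝ) [hL : Fact (0 < L)] (N : ℕ)
    (Ψ : (Fin N → Tor 3 L) → ℂ) (hΨ : Measurable Ψ) (i : Fin N) (c : Fin 3) (t : ℝ) :
    ∫⁻ y : Cfg N, ‖dn L Ψ (y + sh L i c t) - dn L Ψ y‖ₑ ^ 2 =
      ∫⁻ x, ‖Ψ (Function.update x i (x i + ec L c t)) - Ψ x‖ₑ ^ 2 := by
  have hu : Measurable fun x : Fin N → Tor 3 L => Function.update x i (x i + ec L c t) := by
    refine measurable_pi_iff.mpr fun j => ?_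
    by_cases hj : j = i
    · subst hj
      simp only [Function.update_self]
      exact (measurable_pi_apply j).add_const _
    · simp only [Function.update_of_ne hj]
      exact measurable_pi_apply j
  have hF : Measurable fun x : Fin N → Tor 3 L =>
      ‖Ψ (Function.update x i (x i + ec L c t)) - Ψ x‖ₑ ^ 2 :=
    ((hΨ.comp hu).sub hΨ).enorm.pow_const 2
  have : ∫⁻ y : Cfg N, ‖dn L Ψ (y + sh L i c t) - dn L Ψ y‖ₑ ^ 2 =
      ∫⁻ y : Cfg N, ENNReal.ofReal (L ^ (3 * N)) *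
        (fun x : Fin N → Tor 3 L =>
          ‖Ψ (Function.update x i (x i + ec L c t)) - Ψ x‖ₑ ^ 2) (up L y) := by
    refine lintegral_congr fun y => ?_
    simp only [dn]
    rw [← mul_sub, enorm_dn L, up_sh]
  have hc : Measurable fun y : Cfg N => (fun x : Fin N → Tor 3 L =>
          ‖Ψ (Function.update x i (x i + ec L c t)) - Ψ x‖ₑ ^ 2) (up L y) :=
    hF.comp (h1 L N).1
  rw [this, lintegral_const_mul _ hc, lint_up h1 L N _ hF, cancelL]

/-- **KIN** -/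
theorem kin (h1 : S_SCALE) (h2 : S_PARS) (h3 : S_SUPK) : S_KIN := by
  intro L hL N Ψ hΨ hn
  have hL0 : 0 < L := hL.out
  have hdm : Measurable (dn L Ψ : Cfg N → ℂ) := by
    unfold dn
    exact (hΨ.comp (h1 L N).1).const_mul _
  have hmem : MemLp (dn L Ψ : Cfg N → ℂ) 2 := by
    refine ⟨hdm.aestronglyMeasurable, ?_⟩
    rw [eLpNorm_lt_top_iff_lintegral_rpow_enorm_lt_top (by norm_num) (by norm_num)]
    have : ∫⁻ y : Cfg N, ‖dn L Ψ y‖ₑ ^ (2 : ℝ≥0∞).toReal = 1 := by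
      rw [← hn, ← lint_dn h1 L N Ψ hΨ]
      refine lintegral_congr fun y => ?_
      simp
    rw [this]
    exact ENNReal.one_lt_top
  have key : ∀ (i : Fin N) (c : Fin 3),
      (⨆ k : ℕ, 4 ^ k *
        ∫⁻ x, ‖Ψ (Function.update x i (x i + ec L c ((2 : ℝ)⁻¹ ^ k))) - Ψ x‖ₑ ^ 2) =
      ∑' M : Fin N → Mom, ENNReal.ofReal ((2 * Real.pi * (M i c : ℝ) / L) ^ 2) *
        ENNReal.ofReal (‖coef (dn L Ψ) M‖ ^ 2) := by
    intro i c
    rw [← h3 (Fin N → Mom) (fun M => 2 * Real.pi * (M i c : ℝ) / L)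
      (fun M => ENNReal.ofReal (‖coef (dn L Ψ) M‖ ^ 2))]
    refine iSup_congr fun k => ?_
    congr 1
    rw [← lint_shift h1 L N Ψ hΨ i c, h2 N _ hmem]
    refine tsum_congr fun M => ?_
    rw [ENNReal.ofReal_mul (by positivity), four_sh]
  unfold kinA kinE
  simp_rw [key]
  have hsw : ∀ M : Fin N → Mom,
      ENNReal.ofReal ((∑ i, (2 * Real.pi / L) ^ 2 * Pool.Agent.H751R2.LHY.sq (M i)) * ‖coef (dn L Ψ) M‖ ^ 2) =
      ∑ i : Fin N, ∑ c : Fin 3, ENNReal.ofReal ((2 * Real.pi * (M i c : ℝ) / L) ^ 2) *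
        ENNReal.ofReal (‖coef (dn L Ψ) M‖ ^ 2) := by
    intro M
    have hs : ∀ i ∈ (Finset.univ : Finset (Fin N)),
        0 ≤ (2 * Real.pi / L) ^ 2 * Pool.Agent.H751R2.LHY.sq (M i) := fun i _ =>
      mul_nonneg (by positivity) (Finset.sum_nonneg fun a _ => by positivity)
    rw [ENNReal.ofReal_mul (Finset.sum_nonneg hs)]
    rw [ENNReal.ofReal_sum_of_nonneg hs, Finset.sum_mul]
    refine Finset.sum_congr rfl fun i _ => ?_
    rw [← Finset.sum_mul]
    congr 1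
    rw [← ENNReal.ofReal_sum_of_nonneg (fun c _ => by positivity)]
    congr 1
    unfold Pool.Agent.H751R2.LHY.sq
    rw [Finset.mul_sum]
    refine Finset.sum_congr rfl fun c _ => ?_
    ring
  simp_rw [hsw]
  rw [Summable.tsum_finsetSum (fun i _ => ENNReal.summable)]
  refine Finset.sum_congr rfl fun i _ => ?_
  rw [Summable.tsum_finsetSum (fun i _ => ENNReal.summable)]

end

end Pool.Agent.U508.TD
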