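import Pool.Agent.U508.TD.Stm
import Pool.Agent.H728R2.LHY.Gen

/-!
# Project TD, package PARS: Parseval for translations on the unit torus
-/

set_option autoImplicit false

open MeasureTheory UnitAddTorus
open scoped ENNReal

namespace Pool.Agent.U508.TD

open Pool.Agent.W761.CB Pool.Agent.H751R2.LHY

lemma fourier_add_arg (n : ℤ) (x y : UnitAddCircle) :
    fourier n (x + y) = fourier n x * fourier n y := by
  simp only [fourier_apply, smul_add, AddCircle.toCircle_add, Circle.coe_mul]

lemma mFourier_add_arg {d : Type*} [Fintype d] (n : d → ℤ) (x y : UnitAddTorus d) :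
    mFourier n (x + y) = mFourier n x * mFourier n y := by
  simp only [mFourier, ContinuousMap.coe_mk, Pi.add_apply, fourier_add_arg,
    Finset.prod_mul_distrib]

lemma coef_shift {N : ℕ} {ψ : Cfg N → ℂ} (hψ : MemLp ψ 2) (h : Cfg N) (M : Fin N → Mom) :
    coef (fun y => ψ (y + h) - ψ y) M = (mFourier (unc M) h - 1) * coef ψ M := by
  have hmp : MeasurePreserving (fun y : Cfg N => y + h) volume volume :=
    measurePreserving_add_right volume h
  have hψ' : MemLp (fun y => ψ (y + h)) 2 := hψ.comp_measurePreserving hmp
  have hi : ∀ φ : Cfg N → ℂ, MemLp φ 2 →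
      Integrable (fun y => mFourier (-unc M) y * φ y) := by
    intro φ hφ
    have h1 : Integrable φ := hφ.integrable (by norm_num)
    refine h1.bdd_mul (c := 1) (mFourier (-unc M)).continuous.aestronglyMeasurable ?_
    refine Filter.Eventually.of_forall fun y => ?_
    have h2 := (mFourier (-unc M)).norm_coe_le_norm y
    rw [mFourier_norm] at h2
    exact h2
  have hinv : mFourier (-unc M) (-h) = mFourier (unc M) h := by
    have h1 : ∀ (n : ℤ) (x : UnitAddCircle), fourier (-n) (-x) = fourier n x := by
      intro n x
      simp only [fourier_apply, neg_smul, smul_neg, neg_neg]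
    simp only [mFourier, ContinuousMap.coe_mk, Pi.neg_apply, h1]
  have hshift : ∫ y, mFourier (-unc M) y * ψ (y + h) = mFourier (unc M) h * coef ψ M := by
    have h1 : ∀ y : Cfg N, mFourier (-unc M) y * ψ (y + h) =
        (fun z => mFourier (unc M) h * (mFourier (-unc M) z * ψ z)) (y + h) := by
      intro y
      simp only
      rw [← hinv, ← mul_assoc, ← mFourier_add_arg]
      congr 2
      abel
    simp_rw [h1]
    rw [integral_add_right_eq_self (fun z => mFourier (unc M) h * (mFourier (-unc M) z * ψ z)) h,
      integral_const_mul]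
    rfl
  have h0 : coef (fun y => ψ (y + h) - ψ y) M =
      ∫ y, (mFourier (-unc M) y * ψ (y + h) - mFourier (-unc M) y * ψ y) := by
    unfold coef mFourierCoeff
    refine integral_congr_ae (Filter.Eventually.of_forall fun y => ?_)
    simp only [smul_eq_mul]
    ring
  rw [h0, integral_sub (hi _ hψ') (hi _ hψ), hshift]
  have h2 : ∫ y, mFourier (-unc M) y * ψ y = coef ψ M := rfl
  rw [h2]
  ring

theorem pars : S_PARS := by
  intro N ψ hψ h
  have hmp : MeasurePreserving (fun y : Cfg N => y + h) volume volume :=
    measurePreserving_add_right volume h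
  have hψ' : MemLp (fun y => ψ (y + h)) 2 := hψ.comp_measurePreserving hmp
  have hf : MemLp (fun y => ψ (y + h) - ψ y) 2 := hψ'.sub hψ
  have h1 := Gn.coef_hasSum hf
  have h2 : ∀ M : Fin N → Mom, ‖coef (fun y => ψ (y + h) - ψ y) M‖ ^ 2 =
      ‖mFourier (unc M) h - 1‖ ^ 2 * ‖coef ψ M‖ ^ 2 := by
    intro M
    rw [coef_shift hψ h M, norm_mul, mul_pow]
  simp only [h2] at h1
  rw [← ENNReal.ofReal_tsum_of_nonneg (fun M => by positivity) h1.summable, h1.tsum_eq,
    ofReal_integral_eq_lintegral_ofReal]
  · refine lintegral_congr fun y => ?_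
    rw [ENNReal.ofReal_pow (norm_nonneg _), ofReal_norm]
  · exact hf.integrable_norm_pow (by norm_num)
  · exact Filter.Eventually.of_forall fun y => by positivity

end Pool.Agent.U508.TD
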