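import Pool.Agent.U508.TD.Stm

/-!
# Package SCALE: rescaling the torus (uniqueness of Haar measure)
-/

set_option autoImplicit false

open MeasureTheory UnitAddTorus Filter Topology
open scoped ENNReal

namespace Pool.Agent.U508.TD.SCA

open Pool.Agent.W761.CB Pool.Agent.H751R2.LHY Pool.Agent.U508.TD

theorem b1 (L : ℝ) [Fact (0 < L)] : BorelSpace (Tor 3 L) := inferInstance

theorem s1 (L : ℝ) [Fact (0 < L)] : SecondCountableTopology (Tor 3 L) := inferInstance

theorem b2 (L : ℝ) [Fact (0 < L)] (N : ℕ) : BorelSpace (Fin N → Tor 3 L) := by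
  have := b1 L
  have := s1 L
  exact Pi.borelSpace

theorem h1 (L : ℝ) [Fact (0 < L)] : Measure.IsAddHaarMeasure (volume : Measure (Tor 3 L)) :=
  inferInstance

theorem h2 (L : ℝ) [Fact (0 < L)] (N : ℕ) :
    Measure.IsAddHaarMeasure (volume : Measure (Fin N → Tor 3 L)) := by
  have := h1 L
  exact Measure.pi.isAddHaarMeasure _

theorem h3 (N : ℕ) : Measure.IsAddHaarMeasure (volume : Measure (Cfg N)) := inferInstance

theorem h4 (N : ℕ) : IsProbabilityMeasure (volume : Measure (Cfg N)) := inferInstance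

theorem sc_cont (L : ℝ) [hL : Fact (0 < L)] : Continuous (sc L) :=
  (AddCircle.homeomorphAddCircle 1 L one_ne_zero (ne_of_gt hL.out)).continuous

theorem sc_symm_cont (L : ℝ) [hL : Fact (0 < L)] : Continuous (sc L).symm :=
  (AddCircle.homeomorphAddCircle 1 L one_ne_zero (ne_of_gt hL.out)).symm.continuous

theorem up_cont (L : ℝ) [Fact (0 < L)] (N : ℕ) :
    Continuous (up L : Cfg N → (Fin N → Tor 3 L)) :=
  continuous_pi fun i => continuous_pi fun a => (sc_cont L).comp (continuous_apply (i, a))

theorem up_meas (L : ℝ) [Fact (0 < L)] (N : ℕ) :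
    Measurable (up L : Cfg N → (Fin N → Tor 3 L)) :=
  measurable_pi_lambda _ fun i => measurable_pi_lambda _ fun a =>
    (sc_cont L).measurable.comp (measurable_pi_apply (i, a))

theorem lo_meas (L : ℝ) [Fact (0 < L)] (N : ℕ) :
    Measurable (lo L : (Fin N → Tor 3 L) → Cfg N) :=
  measurable_pi_lambda _ fun p =>
    (sc_symm_cont L).measurable.comp ((measurable_pi_apply p.2).comp (measurable_pi_apply p.1))

/-- `up` as a homomorphism -/
noncomputable def upH (L : ℝ) [Fact (0 < L)] (N : ℕ) : Cfg N →+ (Fin N → Tor 3 L) where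
  toFun := up L
  map_zero' := by
    funext i a
    exact map_zero (sc L)
  map_add' := by
    intro x y
    funext i a
    exact map_add (sc L) _ _

theorem up_surj (L : ℝ) [Fact (0 < L)] (N : ℕ) : Function.Surjective (upH L N) := by
  intro x
  refine ⟨lo L x, ?_⟩
  funext i a
  exact (sc L).apply_symm_apply _

theorem hmap (L : ℝ) [Fact (0 < L)] (N : ℕ) :
    Measure.IsAddHaarMeasure ((volume : Measure (Cfg N)).map (up L)) := by
  have := b2 L N
  have := h3 N
  refine Measure.isAddHaarMeasure_map (volume : Measure (Cfg N)) (upH L N) (up_cont L N)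
    (up_surj L N) ?_
  rw [cocompact_eq_bot]
  exact tendsto_bot

theorem vol_univ (L : ℝ) [hL : Fact (0 < L)] (N : ℕ) :
    (volume : Measure (Fin N → Tor 3 L)) Set.univ = ENNReal.ofReal (L ^ (3 * N)) := by
  have h0 : (volume : Measure (Tor 3 L)) Set.univ = ENNReal.ofReal (L ^ 3) := by
    rw [volume_pi, Measure.pi_univ]
    simp only [AddCircle.measure_univ, Finset.prod_const, Finset.card_univ, Fintype.card_fin]
    rw [ENNReal.ofReal_pow hL.out.le]
  rw [volume_pi, Measure.pi_univ]
  simp only [h0, Finset.prod_const, Finset.card_univ, Fintype.card_fin]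
  rw [← ENNReal.ofReal_pow (pow_nonneg hL.out.le _), ← pow_mul]

theorem scale : S_SCALE := by
  intro L hL N
  refine ⟨up_meas L N, lo_meas L N, ?_⟩
  have := b2 L N
  have := h2 L N
  have := hmap L N
  have := h4 N
  have he := Measure.isAddInvariant_eq_smul_of_compactSpace
    ((volume : Measure (Cfg N)).map (up L)) (volume : Measure (Fin N → Tor 3 L))
  set c := ((volume : Measure (Cfg N)).map (up L)).addHaarScalarFactor
    (volume : Measure (Fin N → Tor 3 L)) with hc
  have hu : ((volume : Measure (Cfg N)).map (up L)) Set.univ = 1 := by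
    rw [Measure.map_apply (up_meas L N) MeasurableSet.univ, Set.preimage_univ]
    exact measure_univ
  have hpos : 0 < L ^ (3 * N) := pow_pos hL.out _
  have h5 : (c : ℝ≥0∞) * ENNReal.ofReal (L ^ (3 * N)) = 1 := by
    rw [← vol_univ L N, ← hu]
    conv_rhs => rw [he]
    rfl
  have h6 : (c : ℝ≥0∞) = ENNReal.ofReal ((L ^ (3 * N))⁻¹) := by
    rw [ENNReal.ofReal_inv_of_pos hpos]
    exact ENNReal.eq_inv_of_mul_eq_one_left h5
  rw [he, ← h6]
  rfl

end Pool.Agent.U508.TD.SCA

namespace Pool.Agent.U508.TD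

/-- **SCALE** -/
theorem scale : S_SCALE := SCA.scale

end Pool.Agent.U508.TD
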