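import Pool.Agent.U508.TD.Stm

/-!
# Project TD, package SYM: symmetrisation of a wave function
-/

set_option autoImplicit false

open MeasureTheory UnitAddTorus
open scoped ENNReal

namespace Pool.Agent.U508.TD.SYM

open Pool.Agent.W761.CB Pool.Agent.H751R2.LHY

noncomputable section

/-- the quadratic mean of a finite family of complex numbers -/
def qm {ι : Type} [Fintype ι] (g : ι → ℂ) : ℂ :=
  ((√((Fintype.card ι : ℝ)⁻¹ * ∑ i, ‖g i‖ ^ 2) : ℝ) : ℂ)

lemma conv {ι : Type} [Fintype ι] [Nonempty ι] (g : ι → ℂ) :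
    ENNReal.ofReal ((Fintype.card ι : ℝ)⁻¹ * ∑ i, ‖g i‖ ^ 2) =
      (Fintype.card ι : ℝ≥0∞)⁻¹ * ∑ i, ‖g i‖ₑ ^ 2 := by
  have hc : (0 : ℝ) < Fintype.card ι := by exact_mod_cast Fintype.card_pos
  rw [ENNReal.ofReal_mul (by positivity), ENNReal.ofReal_inv_of_pos hc, ENNReal.ofReal_natCast,
    ENNReal.ofReal_sum_of_nonneg (fun i _ => by positivity)]
  congr 1
  apply Finset.sum_congr rfl
  intro i _
  rw [ENNReal.ofReal_pow (norm_nonneg _), ofReal_norm]

lemma qm_sq {ι : Type} [Fintype ι] [Nonempty ι] (g : ι → ℂ) :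
    ‖qm g‖ₑ ^ 2 = (Fintype.card ι : ℝ≥0∞)⁻¹ * ∑ i, ‖g i‖ₑ ^ 2 := by
  rw [← conv, ← ofReal_norm, ← ENNReal.ofReal_pow (norm_nonneg _)]
  congr 1
  unfold qm
  rw [Complex.norm_real, Real.norm_eq_abs, sq_abs, Real.sq_sqrt (by positivity)]

lemma qm_sub {ι : Type} [Fintype ι] [Nonempty ι] (a b : ι → ℂ) :
    ‖qm a - qm b‖ₑ ^ 2 ≤ (Fintype.card ι : ℝ≥0∞)⁻¹ * ∑ i, ‖a i - b i‖ₑ ^ 2 := by
  rw [← conv (fun i => a i - b i), ← ofReal_norm, ← ENNReal.ofReal_pow (norm_nonneg _)]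
  apply ENNReal.ofReal_le_ofReal
  unfold qm
  rw [← Complex.ofReal_sub, Complex.norm_real, Real.norm_eq_abs, sq_abs]
  have hA : ∀ g : ι → ℂ, √((Fintype.card ι : ℝ)⁻¹ * ∑ i, ‖g i‖ ^ 2) =
      √((Fintype.card ι : ℝ)⁻¹) * ‖(WithLp.toLp 2 g : EuclideanSpace ℂ ι)‖ := by
    intro g
    rw [Real.sqrt_mul (by positivity), EuclideanSpace.norm_eq]
  rw [hA a, hA b, ← mul_sub, mul_pow, Real.sq_sqrt (by positivity)]
  have h1 : ‖(WithLp.toLp 2 (fun i => a i - b i) : EuclideanSpace ℂ ι)‖ ^ 2 =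
      ∑ i, ‖a i - b i‖ ^ 2 := by
    rw [EuclideanSpace.norm_eq, Real.sq_sqrt (by positivity)]
  rw [← h1]
  have h2 : (WithLp.toLp 2 (fun i => a i - b i) : EuclideanSpace ℂ ι) =
      (WithLp.toLp 2 a : EuclideanSpace ℂ ι) - WithLp.toLp 2 b := rfl
  rw [h2]
  have h3 := abs_norm_sub_norm_le (WithLp.toLp 2 a : EuclideanSpace ℂ ι) (WithLp.toLp 2 b)
  gcongr ?_ * ?_
  rw [← sq_abs (‖(WithLp.toLp 2 a : EuclideanSpace ℂ ι)‖ - _)]
  gcongr

/-- sums over pairs of a symmetric function -/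
lemma pairs {N : ℕ} (f : Fin N → Fin N → ℝ≥0∞) (hf : ∀ i j, f i j = f j i) :
    2 * ∑ i : Fin N, ∑ j ∈ Finset.univ.filter (fun j => i < j), f i j =
      ∑ i : Fin N, ∑ j : Fin N, if i = j then 0 else f i j := by
  have h1 : ∑ i : Fin N, ∑ j ∈ Finset.univ.filter (fun j => i < j), f i j =
      ∑ i : Fin N, ∑ j : Fin N, if i < j then f i j else 0 := by
    apply Finset.sum_congr rfl
    intro i _
    rw [Finset.sum_filter]
  have h2 : ∑ i : Fin N, ∑ j : Fin N, (if i < j then f i j else 0) =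
      ∑ i : Fin N, ∑ j : Fin N, if j < i then f i j else 0 := by
    rw [Finset.sum_comm]
    apply Finset.sum_congr rfl
    intro i _
    apply Finset.sum_congr rfl
    intro j _
    rw [hf]
  rw [h1, two_mul]
  nth_rewrite 2 [h2]
  rw [← Finset.sum_add_distrib]
  apply Finset.sum_congr rfl
  intro i _
  rw [← Finset.sum_add_distrib]
  apply Finset.sum_congr rfl
  intro j _
  rcases lt_trichotomy i j with h | h | h
  · rw [if_pos h, if_neg (not_lt.2 h.le), if_neg h.ne, add_zero]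
  · subst h
    simp
  · rw [if_neg (not_lt.2 h.le), if_pos h, if_neg h.ne', zero_add]

lemma pairs_perm {N : ℕ} (f : Fin N → Fin N → ℝ≥0∞) (hf : ∀ i j, f i j = f j i)
    (π : Equiv.Perm (Fin N)) :
    ∑ i : Fin N, ∑ j ∈ Finset.univ.filter (fun j => i < j), f (π i) (π j) =
      ∑ i : Fin N, ∑ j ∈ Finset.univ.filter (fun j => i < j), f i j := by
  have h1 := pairs (fun i j => f (π i) (π j)) (fun i j => hf _ _)
  have h2 := pairs f hf
  have h3 : ∑ i : Fin N, ∑ j : Fin N, (if i = j then 0 else f (π i) (π j)) =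
      ∑ i : Fin N, ∑ j : Fin N, if i = j then 0 else f i j := by
    rw [← Equiv.sum_comp π (fun i => ∑ j : Fin N, if i = j then 0 else f i j)]
    apply Finset.sum_congr rfl
    intro i _
    rw [← Equiv.sum_comp π (fun j => if π i = j then 0 else f (π i) j)]
    apply Finset.sum_congr rfl
    intro j _
    simp
  rw [h3, ← h2] at h1
  exact (ENNReal.mul_right_inj (by norm_num) (by norm_num)).1 h1

section

variable {L : ℝ} [hL : Fact (0 < L)] {N : ℕ}

lemma mp (π : Equiv.Perm (Fin N)) :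
    MeasurePreserving (fun x : Fin N → Tor 3 L => x ∘ π) volume volume := by
  have h := volume_measurePreserving_piCongrLeft (fun _ : Fin N => Tor 3 L) π.symm
  have e : (fun x : Fin N → Tor 3 L => x ∘ π) =
      MeasurableEquiv.piCongrLeft (fun _ : Fin N => Tor 3 L) π.symm := by
    funext x i
    have := MeasurableEquiv.piCongrLeft_apply_apply (β := fun _ : Fin N => Tor 3 L) π.symm x (π i)
    simpa using this.symm
  rw [e]
  exact h

/-- the symmetrised wave function -/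
def sy (Φ : (Fin N → Tor 3 L) → ℂ) (x : Fin N → Tor 3 L) : ℂ :=
  qm fun π : Equiv.Perm (Fin N) => Φ (x ∘ π)

lemma sy_sq (Φ : (Fin N → Tor 3 L) → ℂ) (x : Fin N → Tor 3 L) :
    ‖sy Φ x‖ₑ ^ 2 = (Fintype.card (Equiv.Perm (Fin N)) : ℝ≥0∞)⁻¹ *
      ∑ π : Equiv.Perm (Fin N), ‖Φ (x ∘ π)‖ₑ ^ 2 := qm_sq _

lemma avg (c : ℝ≥0∞) : (Fintype.card (Equiv.Perm (Fin N)) : ℝ≥0∞)⁻¹ *
    ∑ _π : Equiv.Perm (Fin N), c = c := by
  rw [Finset.sum_const, Finset.card_univ, nsmul_eq_mul, ← mul_assoc, ENNReal.inv_mul_cancel, one_mul]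
  · exact_mod_cast Fintype.card_ne_zero
  · exact ENNReal.natCast_ne_top _

lemma sy_int {Φ : (Fin N → Tor 3 L) → ℂ} (hΦ : Measurable Φ) (V : (Fin N → Tor 3 L) → ℝ≥0∞)
    (hV : Measurable V) (hs : ∀ (π : Equiv.Perm (Fin N)) x, V (x ∘ π) = V x) :
    ∫⁻ x, V x * ‖sy Φ x‖ₑ ^ 2 = ∫⁻ x, V x * ‖Φ x‖ₑ ^ 2 := by
  have h1 : ∀ x, V x * ‖sy Φ x‖ₑ ^ 2 = (Fintype.card (Equiv.Perm (Fin N)) : ℝ≥0∞)⁻¹ *
      ∑ π : Equiv.Perm (Fin N), V (x ∘ π) * ‖Φ (x ∘ π)‖ₑ ^ 2 := by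
    intro x
    rw [sy_sq, mul_left_comm, Finset.mul_sum]
    simp only [hs]
  have hm : Measurable fun x => V x * ‖Φ x‖ₑ ^ 2 := hV.mul (hΦ.enorm.pow_const 2)
  rw [lintegral_congr h1, lintegral_const_mul]
  · rw [lintegral_finsetSum]
    · have h2 : ∀ π : Equiv.Perm (Fin N), ∫⁻ x, V (x ∘ π) * ‖Φ (x ∘ π)‖ₑ ^ 2 =
          ∫⁻ x, V x * ‖Φ x‖ₑ ^ 2 := fun π => (mp π).lintegral_comp hm
      rw [Finset.sum_congr rfl fun π _ => h2 π]
      exact avg _
    · intro π _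
      exact hm.comp (mp π).measurable
  · exact Finset.measurable_sum _ fun π _ => hm.comp (mp π).measurable

lemma shift (x : Fin N → Tor 3 L) (i : Fin N) (h : Tor 3 L) (π : Equiv.Perm (Fin N)) :
    (Function.update x i (x i + h)) ∘ π =
      Function.update (x ∘ π) (π.symm i) ((x ∘ π) (π.symm i) + h) := by
  funext j
  simp only [Function.comp_apply, Function.update_apply, Equiv.apply_symm_apply]
  by_cases hj : π j = i
  · rw [if_pos hj, if_pos (by rw [← hj]; simp)]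
  · rw [if_neg hj, if_neg (fun h => hj (by rw [h]; simp))]

lemma meas_shift (i : Fin N) (h : Tor 3 L) :
    Measurable fun x : Fin N → Tor 3 L => Function.update x i (x i + h) := by
  apply measurable_pi_lambda
  intro j
  simp only [Function.update_apply]
  by_cases hj : j = i
  · simp only [if_pos hj]
    have h1 : Measurable fun x : Fin N → Tor 3 L => x i := measurable_pi_apply i
    exact h1.add_const h
  · simp only [if_neg hj]
    exact measurable_pi_apply j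

/-- the difference quotient -/
def dq (Ψ : (Fin N → Tor 3 L) → ℂ) (i : Fin N) (h : Tor 3 L) : ℝ≥0∞ :=
  ∫⁻ x, ‖Ψ (Function.update x i (x i + h)) - Ψ x‖ₑ ^ 2

lemma dq_le {Φ : (Fin N → Tor 3 L) → ℂ} (hΦ : Measurable Φ) (i : Fin N) (h : Tor 3 L) :
    dq (sy Φ) i h ≤ (Fintype.card (Equiv.Perm (Fin N)) : ℝ≥0∞)⁻¹ *
      ∑ π : Equiv.Perm (Fin N), dq Φ (π.symm i) h := by
  have hm : ∀ j, Measurable fun x => ‖Φ (Function.update x j (x j + h)) - Φ x‖ₑ ^ 2 := by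
    intro j
    exact ((hΦ.comp (meas_shift j h)).sub hΦ).enorm.pow_const 2
  unfold dq
  calc ∫⁻ x, ‖sy Φ (Function.update x i (x i + h)) - sy Φ x‖ₑ ^ 2
      ≤ ∫⁻ x, (Fintype.card (Equiv.Perm (Fin N)) : ℝ≥0∞)⁻¹ * ∑ π : Equiv.Perm (Fin N),
          ‖Φ (Function.update (x ∘ π) (π.symm i) ((x ∘ π) (π.symm i) + h)) - Φ (x ∘ π)‖ₑ ^ 2 := by
        apply lintegral_mono
        intro x
        have h1 := qm_sub (fun π : Equiv.Perm (Fin N) => Φ ((Function.update x i (x i + h)) ∘ π))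
          (fun π => Φ (x ∘ π))
        simp only [shift] at h1
        simp only [sy, shift]
        exact h1
    _ = _ := by
        rw [lintegral_const_mul]
        · congr 1
          rw [lintegral_finsetSum]
          · apply Finset.sum_congr rfl
            intro π _
            exact (mp π).lintegral_comp (hm (π.symm i))
          · intro π _
            exact (hm (π.symm i)).comp (mp π).measurable
        · exact Finset.measurable_sum _ fun π _ => (hm (π.symm i)).comp (mp π).measurable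

lemma kin {Φ : (Fin N → Tor 3 L) → ℂ} (hΦ : Measurable Φ) : kinA (sy Φ) ≤ kinA Φ := by
  have h1 : ∀ (i : Fin N) (c : Fin 3), (⨆ k : ℕ, 4 ^ k * dq (sy Φ) i (ec L c ((2 : ℝ)⁻¹ ^ k))) ≤
      (Fintype.card (Equiv.Perm (Fin N)) : ℝ≥0∞)⁻¹ * ∑ π : Equiv.Perm (Fin N),
        ⨆ k : ℕ, 4 ^ k * dq Φ (π.symm i) (ec L c ((2 : ℝ)⁻¹ ^ k)) := by
    intro i c
    apply iSup_le
    intro k
    calc 4 ^ k * dq (sy Φ) i (ec L c ((2 : ℝ)⁻¹ ^ k))
        ≤ 4 ^ k * ((Fintype.card (Equiv.Perm (Fin N)) : ℝ≥0∞)⁻¹ *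
          ∑ π : Equiv.Perm (Fin N), dq Φ (π.symm i) (ec L c ((2 : ℝ)⁻¹ ^ k))) := by
          gcongr
          exact dq_le hΦ i _
      _ = (Fintype.card (Equiv.Perm (Fin N)) : ℝ≥0∞)⁻¹ *
          ∑ π : Equiv.Perm (Fin N), 4 ^ k * dq Φ (π.symm i) (ec L c ((2 : ℝ)⁻¹ ^ k)) := by
          rw [mul_left_comm, Finset.mul_sum]
      _ ≤ _ := by
          gcongr with π _
          exact le_iSup (fun k : ℕ => 4 ^ k * dq Φ (π.symm i) (ec L c ((2 : ℝ)⁻¹ ^ k))) k
  unfold kinA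
  change ∑ i : Fin N, ∑ c : Fin 3, ⨆ k : ℕ, 4 ^ k * dq (sy Φ) i (ec L c ((2 : ℝ)⁻¹ ^ k)) ≤
    ∑ i : Fin N, ∑ c : Fin 3, ⨆ k : ℕ, 4 ^ k * dq Φ i (ec L c ((2 : ℝ)⁻¹ ^ k))
  calc _ ≤ ∑ i : Fin N, ∑ c : Fin 3, (Fintype.card (Equiv.Perm (Fin N)) : ℝ≥0∞)⁻¹ *
        ∑ π : Equiv.Perm (Fin N), ⨆ k : ℕ, 4 ^ k * dq Φ (π.symm i) (ec L c ((2 : ℝ)⁻¹ ^ k)) :=
        Finset.sum_le_sum fun i _ => Finset.sum_le_sum fun c _ => h1 i c
    _ = (Fintype.card (Equiv.Perm (Fin N)) : ℝ≥0∞)⁻¹ * ∑ π : Equiv.Perm (Fin N), ∑ i : Fin N,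
        ∑ c : Fin 3, ⨆ k : ℕ, 4 ^ k * dq Φ (π.symm i) (ec L c ((2 : ℝ)⁻¹ ^ k)) := by
        simp only [← Finset.mul_sum]
        congr 1
        symm
        rw [Finset.sum_comm]
        apply Finset.sum_congr rfl
        intro i _
        rw [Finset.sum_comm]
    _ = (Fintype.card (Equiv.Perm (Fin N)) : ℝ≥0∞)⁻¹ * ∑ π : Equiv.Perm (Fin N), ∑ i : Fin N,
        ∑ c : Fin 3, ⨆ k : ℕ, 4 ^ k * dq Φ i (ec L c ((2 : ℝ)⁻¹ ^ k)) := by
        congr 1
        apply Finset.sum_congr rfl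
        intro π _
        exact Equiv.sum_comp π.symm (fun i => ∑ c : Fin 3, ⨆ k : ℕ,
          4 ^ k * dq Φ i (ec L c ((2 : ℝ)⁻¹ ^ k)))
    _ = _ := avg _

end

theorem sym : S_SYM := by
  intro L _ N v Φ hv hΦ h1
  refine ⟨sy Φ, ⟨?_, ?_, ?_⟩, kin hΦ, ?_⟩
  · unfold sy qm
    have : ∀ π : Equiv.Perm (Fin N), Measurable fun x : Fin N → Tor 3 L => ‖Φ (x ∘ π)‖ ^ 2 :=
      fun π => (hΦ.comp (mp π).measurable).norm.pow_const 2
    exact Complex.measurable_ofReal.comp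
      (((Finset.measurable_sum _ fun π _ => this π).const_mul _).sqrt)
  · intro σ x
    unfold sy qm
    congr 3
    exact Equiv.sum_comp (Equiv.mulLeft σ) (fun π : Equiv.Perm (Fin N) => ‖Φ (x ∘ π)‖ ^ 2)
  · have := sy_int hΦ (fun _ => 1) measurable_const (fun _ _ => rfl)
    simpa [h1] using this
  · unfold potA
    apply le_of_eq
    apply sy_int hΦ
    · apply Finset.measurable_sum
      intro i _
      apply Finset.measurable_sum
      intro j _
      apply hv.comp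
      have hx : ∀ (l : Fin N) (c : Fin 3), Measurable fun x : Fin N → Tor 3 L => x l c :=
        fun l c => (measurable_pi_apply c).comp (measurable_pi_apply l)
      exact (Finset.measurable_sum _ fun c _ => ((hx i c).sub (hx j c)).norm.pow_const 2).sqrt
    · intro π x
      exact pairs_perm (fun i j => v (tdist (x i) (x j))) (fun i j => by
        unfold tdist
        simp only [norm_sub_rev]) π

end

end Pool.Agent.U508.TD.SYM
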