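import Pool.Agent.U508.TD.Stm
import Pool.Agent.W376.CB.Trunc

/-!
# Two-sided bounds on the depletion: assembly of the upper bound on the condensate
-/

set_option autoImplicit false

open MeasureTheory UnitAddTorus
open scoped ENNReal

namespace Pool.Agent.U508.TD.A

open Pool.Agent.W761.CB Pool.Agent.H751R2.LHY

noncomputable section

variable {L : ℝ} [Fact (0 < L)] {N : ℕ}

lemma enN_zero (μ : ℝ≥0∞) (v : ℝ → ℝ≥0∞) (Ψ : (Fin N → Tor 3 L) → ℂ) :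
    enN μ 0 v Ψ = μ * kinA Ψ + potA v Ψ := by
  unfold enN kinA potA
  simp

lemma enN_le_K (μ : ℝ≥0∞) (K : (Fin 3 → ℝ) → ℝ≥0∞) (v : ℝ → ℝ≥0∞)
    (Ψ : (Fin N → Tor 3 L) → ℂ) : μ * kinA Ψ + potA v Ψ ≤ enN μ K v Ψ := by
  unfold enN kinA potA
  gcongr
  exact le_self_add

lemma sq_sub (a b : ℂ) : ‖a - b‖ₑ ^ 2 ≤ 2 * ‖a‖ₑ ^ 2 + 2 * ‖b‖ₑ ^ 2 := by
  have h : ∀ c : ℂ, ‖c‖ₑ ^ 2 = ENNReal.ofReal (‖c‖ ^ 2) := fun c => by
    rw [← ofReal_norm, ENNReal.ofReal_pow (norm_nonneg _)]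
  rw [h, h, h, show (2 : ℝ≥0∞) = ENNReal.ofReal 2 by simp, ← ENNReal.ofReal_mul (by norm_num),
    ← ENNReal.ofReal_mul (by norm_num), ← ENNReal.ofReal_add (by positivity) (by positivity)]
  apply ENNReal.ofReal_le_ofReal
  have h1 := norm_sub_le a b
  nlinarith [norm_nonneg (a - b), norm_nonneg a, norm_nonneg b, sq_nonneg (‖a‖ - ‖b‖)]

lemma shift_le (Φ : (Fin N → Tor 3 L) → ℂ) (hm : Measurable Φ) (hn : ∫⁻ x, ‖Φ x‖ₑ ^ 2 = 1)
    (i : Fin N) (h : Tor 3 L) :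
    ∫⁻ x, ‖Φ (Function.update x i (x i + h)) - Φ x‖ₑ ^ 2 ≤ 4 := by
  have hup : ∀ x : Fin N → Tor 3 L, Function.update x i (x i + h) = Pi.single i h + x := by
    intro x
    funext j
    by_cases hj : j = i
    · subst hj; simp [add_comm]
    · simp [hj]
  have h1 : ∫⁻ x, ‖Φ (Function.update x i (x i + h))‖ₑ ^ 2 = 1 := by
    simp_rw [hup]
    have hT : (volume : Measure (Tor 3 L)).IsAddLeftInvariant := inferInstance
    have hI : (volume : Measure (Fin N → Tor 3 L)).IsAddLeftInvariant := inferInstance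
    rw [lintegral_add_left_eq_self (μ := (volume : Measure (Fin N → Tor 3 L)))
      (fun x => ‖Φ x‖ₑ ^ 2) (Pi.single i h)]
    exact hn
  have hmeas : Measurable fun x : Fin N → Tor 3 L => ‖Φ x‖ₑ ^ 2 := by fun_prop
  calc ∫⁻ x, ‖Φ (Function.update x i (x i + h)) - Φ x‖ₑ ^ 2
      ≤ ∫⁻ x, (2 * ‖Φ (Function.update x i (x i + h))‖ₑ ^ 2 + 2 * ‖Φ x‖ₑ ^ 2) :=
        lintegral_mono fun x => sq_sub _ _
    _ = 2 * 1 + 2 * 1 := by
        rw [lintegral_add_right _ (hmeas.const_mul 2), lintegral_const_mul' _ _ (by simp),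
          lintegral_const_mul' _ _ (by simp), h1, hn]
    _ = 4 := by norm_num

lemma enN_K_le (μ : ℝ≥0∞) (K : (Fin 3 → ℝ) → ℝ≥0∞) (v : ℝ → ℝ≥0∞)
    (Φ : (Fin N → Tor 3 L) → ℂ) (hm : Measurable Φ) (hn : ∫⁻ x, ‖Φ x‖ₑ ^ 2 = 1)
    (hK : Measurable K) :
    enN μ K v Φ ≤ enN μ 0 v Φ + 2 * N * ∫⁻ z, K z := by
  rw [enN_zero]
  unfold enN kinA potA
  have h1 : 2⁻¹ * (∑ i : Fin N, ∫⁻ z, K z *
      ∫⁻ x, ‖Φ (Function.update x i (x i + pr L z)) - Φ x‖ₑ ^ 2) ≤ 2 * N * ∫⁻ z, K z := by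
    calc 2⁻¹ * (∑ i : Fin N, ∫⁻ z, K z *
        ∫⁻ x, ‖Φ (Function.update x i (x i + pr L z)) - Φ x‖ₑ ^ 2)
        ≤ 2⁻¹ * (∑ i : Fin N, ∫⁻ z, K z * 4) := by
          gcongr with i _ z
          exact shift_le Φ hm hn i _
      _ = 2⁻¹ * (N * ((∫⁻ z, K z) * 4)) := by
          rw [lintegral_mul_const _ hK]
          simp
      _ = (2⁻¹ * 4) * N * ∫⁻ z, K z := by ring
      _ = 2 * N * ∫⁻ z, K z := by
          congr 2
          rw [show (4 : ℝ≥0∞) = 2 * 2 by norm_num, ← mul_assoc,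
            ENNReal.inv_mul_cancel (by norm_num) (by norm_num), one_mul]
  calc _ ≤ μ * (∑ i : Fin N, ∑ c : Fin 3, ⨆ k : ℕ, 4 ^ k *
      ∫⁻ x, ‖Φ (Function.update x i (x i + ec L c ((2 : ℝ)⁻¹ ^ k))) - Φ x‖ₑ ^ 2) +
      (2 * N * ∫⁻ z, K z) + (∫⁻ x, (∑ i : Fin N, ∑ j ∈ Finset.univ.filter fun j => i < j,
        v (tdist (x i) (x j))) * ‖Φ x‖ₑ ^ 2) := by gcongr
    _ = _ := by rw [add_right_comm]

lemma kinE_mul {q μ : ℝ} (hμ : 0 ≤ μ) (hq : 0 ≤ q) (ψ : Cfg N → ℂ) :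
    ENNReal.ofReal μ * kinE q ψ = kinE (μ * q) ψ := by
  unfold kinE
  rw [← ENNReal.tsum_mul_left]
  refine tsum_congr fun M => ?_
  rw [← ENNReal.ofReal_mul hμ]
  congr 1
  rw [← mul_assoc, Finset.mul_sum]
  congr 1
  exact Finset.sum_congr rfl fun i _ => by ring

lemma kinE_ae {q : ℝ} {ψ φ : Cfg N → ℂ} (h : ψ =ᵐ[volume] φ) : kinE q ψ = kinE q φ := by
  unfold kinE
  refine tsum_congr fun M => ?_
  have : coef ψ M = coef φ M := by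
    unfold coef mFourierCoeff
    refine integral_congr_ae ?_
    filter_upwards [h] with x hx
    rw [hx]
  rw [this]

lemma potE_ae {W : T3 → ℝ≥0∞} {ψ φ : Cfg N → ℂ} (h : ψ =ᵐ[volume] φ) :
    potE W ψ = potE W φ := by
  unfold potE
  refine lintegral_congr_ae ?_
  filter_upwards [h] with x hx
  rw [hx]

lemma up_lo (x : Fin N → Tor 3 L) : up L (lo L x) = x := by
  funext i a
  simp [up, lo]

lemma lo_up (y : Cfg N) : lo L (up L y) = y := by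
  funext p
  simp [up, lo]

/-- the wave function on the torus of side `L` -/
def uw (L : ℝ) [Fact (0 < L)] (φ : Cfg N → ℂ) : (Fin N → Tor 3 L) → ℂ :=
  fun x => (((Real.sqrt (L ^ (3 * N)))⁻¹ : ℝ) : ℂ) * φ (lo L x)

lemma sqrt_pos' (L : ℝ) [hL : Fact (0 < L)] : 0 < Real.sqrt (L ^ (3 * N)) := by
  have := hL.out
  positivity

lemma dn_uw (φ : Cfg N → ℂ) : dn L (uw L φ) = φ := by
  funext y
  have h := (sqrt_pos' (N := N) L).ne'
  simp only [dn, uw, lo_up, ← mul_assoc, ← Complex.ofReal_mul, mul_inv_cancel₀ h,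
    Complex.ofReal_one, one_mul]

lemma lint_up (hS : S_SCALE) (F : (Fin N → Tor 3 L) → ℝ≥0∞) (hF : Measurable F) :
    ∫⁻ y : Cfg N, F (up L y) = ENNReal.ofReal ((L ^ (3 * N))⁻¹) * ∫⁻ x, F x := by
  obtain ⟨h1, _, h3⟩ := hS L N
  rw [← lintegral_map hF h1, h3, lintegral_smul_measure, smul_eq_mul]

lemma norm_dn (hS : S_SCALE) (Ψ : (Fin N → Tor 3 L) → ℂ) (hm : Measurable Ψ) :
    ∫⁻ y, ‖dn L Ψ y‖ₑ ^ 2 = ∫⁻ x, ‖Ψ x‖ₑ ^ 2 := by
  have h0 := sqrt_pos' (N := N) L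
  have hL : 0 < L := Fact.out
  have h1 : ∀ y, ‖dn L Ψ y‖ₑ ^ 2 = ENNReal.ofReal (L ^ (3 * N)) * ‖Ψ (up L y)‖ₑ ^ 2 := by
    intro y
    unfold dn
    rw [enorm_mul, mul_pow]
    congr 1
    rw [← ofReal_norm, Complex.norm_real, Real.norm_of_nonneg h0.le,
      ← ENNReal.ofReal_pow h0.le, Real.sq_sqrt (by positivity)]
  simp_rw [h1]
  rw [lintegral_const_mul' _ _ ENNReal.ofReal_ne_top,
    lint_up hS (fun x => ‖Ψ x‖ₑ ^ 2) (by fun_prop), ← mul_assoc, ← ENNReal.ofReal_mul (by positivity),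
    mul_inv_cancel₀ (by positivity), ENNReal.ofReal_one, one_mul]

lemma meas_dn (hS : S_SCALE) {Ψ : (Fin N → Tor 3 L) → ℂ} (hm : Measurable Ψ) :
    Measurable (dn L Ψ) := by
  have h1 := (hS L N).1
  unfold dn
  exact (hm.comp h1).const_mul _

lemma memLp_of {ψ : Cfg N → ℂ} (hm : Measurable ψ) (h : ∫⁻ y, ‖ψ y‖ₑ ^ 2 = 1) : MemLp ψ 2 := by
  refine ⟨hm.aestronglyMeasurable, ?_⟩
  rw [eLpNorm_lt_top_iff_lintegral_rpow_enorm_lt_top (by norm_num) (by norm_num)]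
  simp only [ENNReal.toReal_ofNat, ENNReal.rpow_ofNat]
  rw [h]; exact ENNReal.one_lt_top

lemma int_of {ψ : Cfg N → ℂ} (hm : Measurable ψ) (h : ∫⁻ y, ‖ψ y‖ₑ ^ 2 = 1) :
    ∫ y, ‖ψ y‖ ^ 2 = 1 := by
  rw [integral_eq_lintegral_of_nonneg_ae (Filter.Eventually.of_forall fun x => by positivity)
    (by fun_prop)]
  have : ∀ y, ENNReal.ofReal (‖ψ y‖ ^ 2) = ‖ψ y‖ₑ ^ 2 := fun y => by
    rw [← ofReal_norm, ENNReal.ofReal_pow (norm_nonneg _)]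
  simp_rw [this]
  rw [h]; simp

lemma lint_of {ψ : Cfg N → ℂ} (hψ : MemLp ψ 2) (h : ∫ y, ‖ψ y‖ ^ 2 = 1) :
    ∫⁻ y, ‖ψ y‖ₑ ^ 2 = 1 := by
  have h1 : Integrable fun y => ‖ψ y‖ ^ 2 := hψ.integrable_norm_pow (by norm_num)
  have h2 := ofReal_integral_eq_lintegral_ofReal h1
    (Filter.Eventually.of_forall fun x => by positivity)
  rw [h, ENNReal.ofReal_one] at h2
  rw [h2]
  refine lintegral_congr fun y => ?_
  rw [← ofReal_norm, ENNReal.ofReal_pow (norm_nonneg _)]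

/-- a wave function on the unit torus is approximated by bounded symmetric wave functions with at most
the same energy -/
lemma approx (hS : S_SCALE) (hK : S_KIN) (hP : S_POT) (hY : S_SYM) {μ R ε : ℝ} (hμ : 0 < μ)
    {v : ℝ → ℝ≥0∞} (hv : Measurable v) (hvR : ∀ r, R < r → v r = 0) (hRL : 2 * R < L)
    (hvf : ∫⁻ z : Fin 3 → ℝ, v (el z) ≠ ⊤) (hε : 0 < ε) (φ : Cfg N → ℂ) (hφ : MemLp φ 2)
    (hφ1 : ∫ y, ‖φ y‖ ^ 2 = 1)
    (hfin : kinE (μ * (2 * Real.pi / L) ^ 2) φ +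
      potE (perPot (fun z => (v (el z)).toReal) L) φ ≠ ⊤) :
    ∃ Φ : (Fin N → Tor 3 L) → ℂ, IsWf Φ ∧ enN (ENNReal.ofReal μ) 0 v Φ ≤
      kinE (μ * (2 * Real.pi / L) ^ 2) φ + potE (perPot (fun z => (v (el z)).toReal) L) φ +
        ENNReal.ofReal ε := by
  obtain ⟨φ', hφ'm, hae⟩ : ∃ φ' : Cfg N → ℂ, Measurable φ' ∧ φ =ᵐ[volume] φ' :=
    ⟨hφ.1.mk φ, hφ.1.stronglyMeasurable_mk.measurable, hφ.1.ae_eq_mk⟩
  rw [kinE_ae hae, potE_ae hae] at hfin ⊢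
  have hn' : ∫⁻ y, ‖φ' y‖ₑ ^ 2 = 1 := by
    rw [← lint_of hφ hφ1]
    refine lintegral_congr_ae ?_
    filter_upwards [hae] with y hy
    rw [hy]
  have hlo := (hS L N).2.1
  have hm0 : Measurable (uw L φ') := by
    unfold uw
    exact (hφ'm.comp hlo).const_mul _
  have hn0 : ∫⁻ x, ‖uw L φ' x‖ₑ ^ 2 = 1 := by
    rw [← norm_dn hS _ hm0, dn_uw]; exact hn'
  have he0 : enN (ENNReal.ofReal μ) 0 v (uw L φ') =
      kinE (μ * (2 * Real.pi / L) ^ 2) φ' + potE (perPot (fun z => (v (el z)).toReal) L) φ' := by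
    rw [enN_zero, hK L N _ hm0 hn0, hP L N v R _ hv hvR hRL hvf hm0, dn_uw,
      kinE_mul hμ.le (by positivity)]
  obtain ⟨Φ1, hΦ1, hk1, hp1⟩ := hY L N v (uw L φ') hv hm0 hn0
  have he1 : enN (ENNReal.ofReal μ) 0 v Φ1 ≤ enN (ENNReal.ofReal μ) 0 v (uw L φ') := by
    rw [enN_zero, enN_zero]
    gcongr
  have hft : enN (ENNReal.ofReal μ) 0 v Φ1 ≠ ⊤ := by
    refine ne_top_of_le_ne_top hfin ?_
    rw [← he0]; exact he1
  obtain ⟨Φ2, hΦ2, he2, _⟩ := Pool.Agent.W376.CB.trunc 3 L (ENNReal.ofReal μ) 0 v N Φ1 ε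
    measurable_zero hv hε hΦ1 hft
  refine ⟨Φ2, hΦ2, he2.trans ?_⟩
  rw [← he0]
  gcongr

end

end Pool.Agent.U508.TD.A
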