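import Pool.Agent.U508.TD.Two
import Pool.Agent.U508.TD.SCALE
import Pool.Agent.U508.TD.PARS
import Pool.Agent.U508.TD.KIN
import Pool.Agent.U508.TD.SYM
import Pool.Agent.U333.TD.COND

/-!
# Displacements of particles in states with a condensate
-/

set_option autoImplicit false

open MeasureTheory UnitAddTorus
open scoped ENNReal ComplexConjugate

namespace Pool.Agent.U508.TD.C

open Pool.Agent.W761.CB Pool.Agent.H751R2.LHY Pool.Agent.U508.TD

noncomputable section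

variable {L : ℝ} [hL : Fact (0 < L)] {N : ℕ}

/-- the weight of the states in which the particle `i` has momentum `0` -/
def w0 (ψ : Cfg N → ℂ) (i : Fin N) : ℝ :=
  ∑' M : Fin N → Mom, (if M i = 0 then ‖coef ψ M‖ ^ 2 else 0)

lemma int_perm (g : (Fin N → Tor 3 L) → ℝ) (π : Equiv.Perm (Fin N)) :
    ∫ x : Fin N → Tor 3 L, g (x ∘ π) = ∫ x, g x := by
  have h := volume_measurePreserving_piCongrLeft (fun _ : Fin N => Tor 3 L) π.symm
  have e : (fun x : Fin N → Tor 3 L => x ∘ π) =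
      MeasurableEquiv.piCongrLeft (fun _ : Fin N => Tor 3 L) π.symm := by
    funext x i
    have h2 := Equiv.piCongrLeft_apply_apply (fun _ : Fin N => Tor 3 L) π.symm x (π i)
    simp only [Equiv.symm_apply_apply] at h2
    exact h2.symm
  have h3 := h.integral_comp' g
  rw [← h3]
  refine integral_congr_ae (Filter.Eventually.of_forall fun x => ?_)
  exact congrArg g (congrFun e x)

lemma A_symm {Ψ : (Fin N → Tor 3 L) → ℂ} (hΨ : IsWf2 Ψ) (i j : Fin N) :
    ∫ x, ∫ y, (conj (Ψ x) * Ψ (Function.update x i y)).re =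
      ∫ x, ∫ y, (conj (Ψ x) * Ψ (Function.update x j y)).re := by
  rw [← int_perm (fun x => ∫ y, (conj (Ψ x) * Ψ (Function.update x i y)).re) (Equiv.swap i j)]
  refine integral_congr_ae (Filter.Eventually.of_forall fun x => ?_)
  refine integral_congr_ae (Filter.Eventually.of_forall fun y => ?_)
  have h : Function.update (x ∘ Equiv.swap i j) i y =
      (Function.update x j y) ∘ Equiv.swap i j := by
    funext k
    simp only [Function.update_apply, Function.comp_apply]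
    by_cases hk : k = i
    · subst hk; simp
    · have : Equiv.swap i j k ≠ j := by
        intro h
        apply hk
        have h2 := congrArg (Equiv.swap i j) h
        rw [Equiv.swap_apply_self, Equiv.swap_apply_right] at h2
        exact h2
      rw [if_neg hk, if_neg this]
  simp only [h, hΨ.symm]

lemma w0_eq {Ψ : (Fin N → Tor 3 L) → ℂ} (hΨ : IsWf2 Ψ) (i : Fin N) :
    N * w0 (dn L Ψ) i = condN Ψ := by
  have hone : ∀ j, ∫ x, ∫ y, (conj (Ψ x) * Ψ (Function.update x j y)).re =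
      L ^ 3 * w0 (dn L Ψ) j := fun j =>
    Pool.Agent.U333.TD.one Pool.Agent.U508.TD.scale hΨ.meas hΨ.norm j
  have hL0 : L ^ 3 ≠ 0 := pow_ne_zero _ (ne_of_gt hL.out)
  have hall : ∀ j, w0 (dn L Ψ) j = w0 (dn L Ψ) i := by
    intro j
    have h := A_symm hΨ j i
    rw [hone, hone] at h
    exact mul_left_cancel₀ hL0 h
  unfold condN
  have h2 : ∑ j : Fin N, ∫ x, ∫ y, ((starRingEnd ℂ) (Ψ x) * Ψ (Function.update x j y)).re =
      ∑ j : Fin N, L ^ 3 * w0 (dn L Ψ) i := by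
    refine Finset.sum_congr rfl fun j _ => ?_
    rw [← hall j]
    exact hone j
  rw [h2, Finset.sum_const, Finset.card_univ, Fintype.card_fin, nsmul_eq_mul, mul_left_comm,
    ← mul_assoc (L ^ 3)⁻¹, inv_mul_cancel₀ hL0, one_mul]

lemma sum_one {Ψ : (Fin N → Tor 3 L) → ℂ} (hΨ : IsWf2 Ψ) :
    HasSum (fun M : Fin N → Mom => ‖coef (dn L Ψ) M‖ ^ 2) 1 := by
  have hm := A.meas_dn Pool.Agent.U508.TD.scale hΨ.meas
  have hn : ∫⁻ y, ‖dn L Ψ y‖ₑ ^ 2 = 1 := by
    rw [A.norm_dn Pool.Agent.U508.TD.scale Ψ hΨ.meas]; exact hΨ.norm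
  have h := Gn.coef_hasSum (A.memLp_of hm hn)
  rw [A.int_of hm hn] at h
  exact h

/-- weight of `M` if the particle `i` has a nonzero momentum -/
def bb (ψ : Cfg N → ℂ) (i : Fin N) (M : Fin N → Mom) : ℝ :=
  if M i = 0 then 0 else ‖coef ψ M‖ ^ 2

lemma bb_nonneg (ψ : Cfg N → ℂ) (i : Fin N) (M : Fin N → Mom) : 0 ≤ bb ψ i M := by
  unfold bb; split_ifs <;> positivity

lemma bb_sum {Ψ : (Fin N → Tor 3 L) → ℂ} (hΨ : IsWf2 Ψ) (i : Fin N) :
    HasSum (bb (dn L Ψ) i) (1 - w0 (dn L Ψ) i) := by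
  have h1 := sum_one hΨ
  have h2 : Summable fun M : Fin N → Mom =>
      (if M i = 0 then ‖coef (dn L Ψ) M‖ ^ 2 else 0) := by
    refine Summable.of_nonneg_of_le (fun M => ?_) (fun M => ?_) h1.summable
    · split_ifs <;> positivity
    · split_ifs
      · exact le_rfl
      · positivity
  have h3 := h1.sub h2.hasSum
  have h4 : bb (dn L Ψ) i = fun M => ‖coef (dn L Ψ) M‖ ^ 2 -
      (if M i = 0 then ‖coef (dn L Ψ) M‖ ^ 2 else 0) := by
    funext M
    unfold bb
    split_ifs <;> simp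
  rw [h4]
  exact h3

lemma memLp_dn {Ψ : (Fin N → Tor 3 L) → ℂ} (hΨ : IsWf2 Ψ) : MemLp (dn L Ψ) 2 :=
  A.memLp_of (A.meas_dn Pool.Agent.U508.TD.scale hΨ.meas)
    (by rw [A.norm_dn Pool.Agent.U508.TD.scale Ψ hΨ.meas]; exact hΨ.norm)

lemma up_add (y y' : Cfg N) : up L (y + y') = up L y + up L y' := by
  funext i a
  simp [up]

lemma shift_eq {Ψ : (Fin N → Tor 3 L) → ℂ} (hΨ : IsWf2 Ψ) (k : Cfg N) :
    ∫⁻ x, ‖Ψ (x + up L k) - Ψ x‖ₑ ^ 2 = ∑' M : Fin N → Mom,
      ENNReal.ofReal (‖mFourier (unc M) k - 1‖ ^ 2 * ‖coef (dn L Ψ) M‖ ^ 2) := by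
  rw [← Pool.Agent.U508.TD.pars N (dn L Ψ) (memLp_dn hΨ) k]
  have hG : Measurable fun x : Fin N → Tor 3 L => ‖Ψ (x + up L k) - Ψ x‖ₑ ^ 2 :=
    (((hΨ.meas.comp (measurable_id.add_const _)).sub hΨ.meas).enorm).pow_const 2
  rw [Pool.Agent.U333.TD.lint_scale Pool.Agent.U508.TD.scale _ hG]
  have h1 : ∀ y : Cfg N, ‖dn L Ψ (y + k) - dn L Ψ y‖ₑ ^ 2 =
      ENNReal.ofReal (L ^ (3 * N)) * ‖Ψ (up L y + up L k) - Ψ (up L y)‖ₑ ^ 2 := by
    intro y
    simp only [dn]
    rw [← mul_sub, enorm_dn L, up_add]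
  simp_rw [h1]
  rw [lintegral_const_mul' _ _ ENNReal.ofReal_ne_top]

lemma nrm1 {d : Type} [Fintype d] (n : d → ℤ) (x : UnitAddTorus d) : ‖mFourier n x‖ = 1 :=
  Pool.Agent.U333.TD.mF_nrm n x

/-- **upper bound** -/
lemma upper_disp {Ψ : (Fin N → Tor 3 L) → ℂ} (hΨ : IsWf2 Ψ) (S : Finset (Fin N))
    (h : Fin N → Tor 3 L) (hS : ∀ i ∉ S, h i = 0) :
    ∫⁻ x, ‖Ψ (x + h) - Ψ x‖ₑ ^ 2 ≤ ENNReal.ofReal (∑ i ∈ S, 4 * (1 - w0 (dn L Ψ) i)) := by
  have hup : up L (lo L h) = h := A.up_lo h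
  have h0 := shift_eq hΨ (lo L h)
  rw [hup] at h0
  rw [h0]
  have hs : HasSum (fun M => ∑ i ∈ S, 4 * bb (dn L Ψ) i M) (∑ i ∈ S, 4 * (1 - w0 (dn L Ψ) i)) :=
    hasSum_sum fun i _ => (bb_sum hΨ i).mul_left 4
  have h1 : ENNReal.ofReal (∑ i ∈ S, 4 * (1 - w0 (dn L Ψ) i)) =
      ∑' M, ENNReal.ofReal (∑ i ∈ S, 4 * bb (dn L Ψ) i M) := by
    rw [← hs.tsum_eq, ENNReal.ofReal_tsum_of_nonneg _ hs.summable]
    intro M
    exact Finset.sum_nonneg fun i _ => mul_nonneg (by norm_num) (bb_nonneg _ _ _)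
  rw [h1]
  refine ENNReal.tsum_le_tsum fun M => ENNReal.ofReal_le_ofReal ?_
  by_cases hM : ∀ i ∈ S, M i = 0
  · have h2 : mFourier (unc M) (lo L h) = 1 := by
      simp only [mFourier, ContinuousMap.coe_mk]
      refine Finset.prod_eq_one fun p _ => ?_
      by_cases hp : p.1 ∈ S
      · have : unc M p = 0 := by simp [unc, hM p.1 hp]
        rw [this]; simp
      · have : lo L h p = 0 := by simp [lo, hS p.1 hp]
        rw [this]; simp
    rw [h2]
    simp only [sub_self, norm_zero, ne_eq, OfNat.ofNat_ne_zero, not_false_eq_true, zero_pow,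
      zero_mul]
    exact Finset.sum_nonneg fun i _ => mul_nonneg (by norm_num) (bb_nonneg _ _ _)
  · push Not at hM
    obtain ⟨i, hi, hMi⟩ := hM
    have h2 : ‖mFourier (unc M) (lo L h) - 1‖ ≤ 2 := by
      refine (norm_sub_le _ _).trans ?_
      rw [nrm1, norm_one]; norm_num
    have h3 : ‖mFourier (unc M) (lo L h) - 1‖ ^ 2 ≤ 4 := by
      nlinarith [norm_nonneg (mFourier (unc M) (lo L h) - 1)]
    calc ‖mFourier (unc M) (lo L h) - 1‖ ^ 2 * ‖coef (dn L Ψ) M‖ ^ 2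
        ≤ 4 * ‖coef (dn L Ψ) M‖ ^ 2 := by gcongr
      _ = 4 * bb (dn L Ψ) i M := by unfold bb; rw [if_neg hMi]
      _ ≤ ∑ i ∈ S, 4 * bb (dn L Ψ) i M :=
          Finset.single_le_sum (f := fun i => 4 * bb (dn L Ψ) i M)
            (fun i _ => mul_nonneg (by norm_num) (bb_nonneg _ _ _)) hi

open Pool.Agent.U333.TD in
/-- the mean of `|e - 1|²` over the torus -/
lemma char_mean (n : Mom) : ∫⁻ z : Tor 3 L, ENNReal.ofReal (‖mFourier n (lo1 z) - 1‖ ^ 2) =
    ENNReal.ofReal (if n = 0 then 0 else 2 * L ^ 3) := by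
  have h1 : ∀ z : Tor 3 L, ‖mFourier n (lo1 z) - 1‖ ^ 2 = 2 - 2 * (mFourier n (lo1 z)).re := by
    intro z
    have h2 : ‖mFourier n (lo1 z)‖ ^ 2 = 1 := by rw [nrm1]; norm_num
    rw [← Complex.normSq_eq_norm_sq, Complex.normSq_apply] at h2 ⊢
    simp only [Complex.sub_re, Complex.one_re, Complex.sub_im, Complex.one_im, sub_zero]
    linarith
  have hc : Continuous (fun h : Tor 3 L => mFourier n (lo1 h)) := (Gn.cont_mF n).comp lo1_cont
  have hi : Integrable (fun z : Tor 3 L => 2 - 2 * (mFourier n (lo1 z)).re) := by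
    refine Continuous.integrable_of_hasCompactSupport ?_ (HasCompactSupport.of_compactSpace _)
    exact continuous_const.sub (continuous_const.mul (Complex.continuous_re.comp hc))
  simp_rw [h1]
  rw [← ofReal_integral_eq_lintegral_ofReal hi (Filter.Eventually.of_forall fun z => by
    show (0 : ℝ) ≤ 2 - 2 * (mFourier n (lo1 z)).re
    rw [← h1 z]; positivity)]
  congr 1
  have hi2 : Integrable (fun z : Tor 3 L => (mFourier n (lo1 z)).re) :=
    (Complex.continuous_re.comp hc).integrable_of_hasCompactSupport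
      (HasCompactSupport.of_compactSpace _)
  rw [integral_sub (integrable_const _) (hi2.const_mul 2), integral_const_mul, int_char,
    integral_const, vol_tor]
  split_ifs
  · simp; ring
  · simp; ring

open Pool.Agent.U333.TD in
/-- **lower bound** -/
lemma lower_disp {Ψ : (Fin N → Tor 3 L) → ℂ} (hΨ : IsWf2 Ψ) (i : Fin N)
    (hw : 0 < 1 - w0 (dn L Ψ) i) :
    ∃ z : Tor 3 L, ENNReal.ofReal (1 - w0 (dn L Ψ) i) ≤
      ∫⁻ x, ‖Ψ (Function.update x i (x i + z)) - Ψ x‖ₑ ^ 2 := by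
  by_contra hcon
  push Not at hcon
  have hL0 : 0 < L := hL.out
  have hF : ∀ z : Tor 3 L, ∫⁻ x, ‖Ψ (Function.update x i (x i + z)) - Ψ x‖ₑ ^ 2 =
      ∑' M : Fin N → Mom,
        ENNReal.ofReal (‖mFourier (M i) (lo1 z) - 1‖ ^ 2 * ‖coef (dn L Ψ) M‖ ^ 2) := by
    intro z
    have h1 := shift_eq hΨ (Pool.Agent.U333.TD.sh i z)
    have h2 : up L (Pool.Agent.U333.TD.sh i z : Cfg N) = Pi.single i z := by
      have h3 := Pool.Agent.U333.TD.up_sh i z (0 : Cfg N)
      rw [zero_add] at h3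
      rw [h3]
      have h4 : up L (0 : Cfg N) = 0 := by
        funext j a; simp [up]
      rw [h4, zero_add]
    rw [h2] at h1
    simp only [Pool.Agent.U333.TD.mF_sh] at h1
    rw [← h1]
    refine lintegral_congr fun x => ?_
    have h5 : Function.update x i (x i + z) = x + Pi.single i z := by
      funext j
      by_cases hj : j = i
      · subst hj; simp
      · simp [hj]
    rw [h5]
  have hm : ∀ M : Fin N → Mom, Measurable fun z : Tor 3 L =>
      ENNReal.ofReal (‖mFourier (M i) (lo1 z) - 1‖ ^ 2 * ‖coef (dn L Ψ) M‖ ^ 2) := by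
    intro M
    have hc : Continuous (fun h : Tor 3 L => mFourier (M i) (lo1 h)) :=
      (Gn.cont_mF (M i)).comp lo1_cont
    exact ((((hc.sub continuous_const).norm.pow 2).mul continuous_const).measurable).ennreal_ofReal
  have htot : ∫⁻ z : Tor 3 L, ∑' M : Fin N → Mom,
      ENNReal.ofReal (‖mFourier (M i) (lo1 z) - 1‖ ^ 2 * ‖coef (dn L Ψ) M‖ ^ 2) =
      ENNReal.ofReal (2 * L ^ 3 * (1 - w0 (dn L Ψ) i)) := by
    rw [lintegral_tsum fun M => (hm M).aemeasurable]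
    have hb := (bb_sum hΨ i).mul_left (2 * L ^ 3)
    rw [← hb.tsum_eq, ENNReal.ofReal_tsum_of_nonneg (fun M => mul_nonneg (by positivity)
      (bb_nonneg _ _ _)) hb.summable]
    refine tsum_congr fun M => ?_
    have h1 : ∀ z : Tor 3 L,
        ENNReal.ofReal (‖mFourier (M i) (lo1 z) - 1‖ ^ 2 * ‖coef (dn L Ψ) M‖ ^ 2) =
        ENNReal.ofReal (‖mFourier (M i) (lo1 z) - 1‖ ^ 2) *
          ENNReal.ofReal (‖coef (dn L Ψ) M‖ ^ 2) := fun z =>
      ENNReal.ofReal_mul (by positivity)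
    simp_rw [h1]
    rw [lintegral_mul_const' _ _ ENNReal.ofReal_ne_top, char_mean,
      ← ENNReal.ofReal_mul (by split_ifs <;> positivity)]
    congr 1
    unfold bb
    split_ifs <;> ring
  have hle : ∫⁻ z : Tor 3 L, ∑' M : Fin N → Mom,
      ENNReal.ofReal (‖mFourier (M i) (lo1 z) - 1‖ ^ 2 * ‖coef (dn L Ψ) M‖ ^ 2) ≤
      ENNReal.ofReal (L ^ 3 * (1 - w0 (dn L Ψ) i)) := by
    calc _ ≤ ∫⁻ _z : Tor 3 L, ENNReal.ofReal (1 - w0 (dn L Ψ) i) := by
          refine lintegral_mono fun z => ?_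
          rw [← hF z]
          exact (hcon z).le
      _ = ENNReal.ofReal (1 - w0 (dn L Ψ) i) * ENNReal.ofReal (L ^ 3) := by
          rw [lintegral_const, ← vol_tor (L := L), Measure.real, ENNReal.ofReal_toReal]
          exact measure_ne_top _ _
      _ = ENNReal.ofReal (L ^ 3 * (1 - w0 (dn L Ψ) i)) := by
          rw [← ENNReal.ofReal_mul hw.le, mul_comm]
  rw [htot, ENNReal.ofReal_le_ofReal_iff (by positivity)] at hle
  have h3 : 0 < L ^ 3 * (1 - w0 (dn L Ψ) i) := by positivity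
  linarith

end

end Pool.Agent.U508.TD.C
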