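import Pool.Agent.U508.TD.Asm
import Pool.Agent.H751R2.LHY.Main

/-!
# Two-sided bounds on the depletion: the upper bound on the condensate
-/

set_option autoImplicit false

open MeasureTheory UnitAddTorus
open scoped ENNReal

namespace Pool.Agent.U508.TD.A

open Pool.Agent.W761.CB Pool.Agent.H751R2.LHY

noncomputable section

lemma el_meas : Measurable (el : (Fin 3 → ℝ) → ℝ) := by
  unfold el
  fun_prop

lemma el_neg (z : Fin 3 → ℝ) : el (-z) = el z := by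
  simp [el]

/-- both statements of the depletion theorem, in the unit torus -/
theorem low (hS : S_SCALE) (hK : S_KIN) (hP : S_POT) (hY : S_SYM)
    {μ R₀ : ℝ} (hμ : 0 < μ) {v : ℝ → ℝ≥0∞} (hv : Measurable v) (hvR : ∀ r, R₀ < r → v r = 0)
    (hv0 : ∫⁻ z : Fin 3 → ℝ, v (el z) ≠ 0) (hvf : ∫⁻ z : Fin 3 → ℝ, v (el z) ≠ ⊤) :
    ∃ c₀ C₀ ρ₀ : ℝ, 0 < c₀ ∧ 0 < C₀ ∧ 0 < ρ₀ ∧ ∀ ρ : ℝ, 0 < ρ → ρ ≤ ρ₀ →
      c₀ * √ρ ≤ 1 ∧ ∃ L₀ : ℝ, 1 ≤ L₀ ∧
      ∀ (L : ℝ) [Fact (0 < L)] (K : (Fin 3 → ℝ) → ℝ≥0∞), L₀ ≤ L → Measurable K →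
      ∫⁻ z, K z ≤ ENNReal.ofReal (c₀ * (ρ * √ρ)) → ∀ N : ℕ, (N : ℝ) = ρ * L ^ 3 →
      ∀ Ψ : (Fin N → Tor 3 L) → ℂ, IsWf2 Ψ → ∀ e : ℝ, e ≤ c₀ * (ρ * √ρ) * N →
      (∀ Φ : (Fin N → Tor 3 L) → ℂ, IsWf Φ →
        enN (ENNReal.ofReal μ) K v Ψ ≤ enN (ENNReal.ofReal μ) K v Φ + ENNReal.ofReal e) →
      ENNReal.ofReal (c₀ * √ρ * N) ≤ occE (dn L Ψ) (fun n => n ≠ 0 ∧
          (2 * Real.pi / L) ^ 2 * Pool.Agent.H751R2.LHY.sq n ≤ C₀ * ρ) ∧
        occE (dn L Ψ) (fun n => n = 0) ≤ ENNReal.ofReal ((1 - c₀ * √ρ) * N) := by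
  obtain ⟨w, hw⟩ : ∃ w : (Fin 3 → ℝ) → ℝ, w = fun z => (v (el z)).toReal := ⟨_, rfl⟩
  have hvm : Measurable fun z : Fin 3 → ℝ => v (el z) := hv.comp el_meas
  have hwm : Measurable w := by rw [hw]; exact hvm.ennreal_toReal
  have hwi : Integrable w := by
    rw [hw]; exact integrable_toReal_of_lintegral_ne_top hvm.aemeasurable hvf
  have h0 : ∀ z, 0 ≤ w z := fun z => by rw [hw]; exact ENNReal.toReal_nonneg
  have he' : ∀ z, w (-z) = w z := fun z => by rw [hw]; simp only [el_neg]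
  have hV : 0 < ∫ z, w z := by
    rw [hw, integral_toReal hvm.aemeasurable (ae_lt_top hvm hvf)]
    exact ENNReal.toReal_pos hv0 hvf
  obtain ⟨c, C, ρ₁, hc, hC', hρ₁, hdep⟩ :=
    depletion (1 / (2 * μ)) (by positivity) w hwm hwi h0 he' hV
  refine ⟨c / 8, C, min (ρ₁ / 2) (1 / (c + 1) ^ 2), by positivity, hC', by positivity, ?_⟩
  intro ρ hρ hρ0
  have hρa : ρ < ρ₁ := by
    have := hρ0.trans (min_le_left _ _); linarith
  have hsρ : √ρ ≤ 1 / (c + 1) := by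
    have h1 := hρ0.trans (min_le_right _ _)
    rw [← Real.sqrt_sq (by positivity : (0 : ℝ) ≤ 1 / (c + 1))]
    refine Real.sqrt_le_sqrt ?_
    rw [one_div_pow]; exact h1
  have hsρ0 : 0 < √ρ := Real.sqrt_pos.2 hρ
  have hcs : c * √ρ ≤ 1 := by
    have h2 : c * (1 / (c + 1)) ≤ 1 := by
      rw [mul_one_div, div_le_one (by linarith)]; linarith
    nlinarith [mul_le_mul_of_nonneg_left hsρ hc.le]
  refine ⟨by nlinarith, ?_⟩
  obtain ⟨N₀, hN₀⟩ := hdep ρ hρ hρa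
  refine ⟨max 1 (max (N₀ / ρ) (2 * |R₀| + 1)), le_max_left _ _, ?_⟩
  intro L _ K hL hKm hKs N hN Ψ hΨ e he hnear
  have hL1 : 1 ≤ L := (le_max_left _ _).trans hL
  have hL2 : N₀ / ρ ≤ L := ((le_max_left _ _).trans (le_max_right _ _)).trans hL
  have hL3 : 2 * |R₀| + 1 ≤ L := ((le_max_right _ _).trans (le_max_right _ _)).trans hL
  have hL0 : 0 < L := by linarith
  have hRL : 2 * R₀ < L := by
    have := le_abs_self R₀; linarith
  have hLL : L ≤ L ^ 3 := by nlinarith [sq_nonneg (L - 1), mul_pos hL0 hL0]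
  have hNN : N₀ ≤ N := by
    have h1 : (N₀ : ℝ) ≤ ρ * L := by
      rw [div_le_iff₀ hρ] at hL2; linarith
    have h2 : (N₀ : ℝ) ≤ N := by
      rw [hN]; exact h1.trans (mul_le_mul_of_nonneg_left hLL hρ.le)
    exact_mod_cast h2
  have hNpos : (0 : ℝ) < N := by rw [hN]; positivity
  have hq : 1 / (2 * (1 / (2 * μ))) = μ := by field_simp
  have hψm := meas_dn hS hΨ.meas
  have hψn : ∫⁻ y, ‖dn L Ψ y‖ₑ ^ 2 = 1 := by rw [norm_dn hS Ψ hΨ.meas]; exact hΨ.norm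
  have hPΨ := hP L N v R₀ Ψ hv hvR hRL hvf hΨ.meas
  have hKΨ := hK L N Ψ hΨ.meas hΨ.norm
  have hE : kinE (μ * (2 * Real.pi / L) ^ 2) (dn L Ψ) + potE (perPot w L) (dn L Ψ) =
      ENNReal.ofReal μ * kinA Ψ + potA v Ψ := by
    rw [hPΨ, hKΨ, kinE_mul hμ.le (by positivity), hw]
  have key := (hN₀ N hNN L hL0 hN (dn L Ψ) (memLp_of hψm hψn) (int_of hψm hψn) (by
    intro φ hφ hφ1
    unfold energy
    rw [hq]
    by_cases hfin : kinE (μ * (2 * Real.pi / L) ^ 2) φ + potE (perPot w L) φ = ⊤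
    · rw [hfin, top_add]; exact le_top
    obtain ⟨ε, hε⟩ : ∃ ε : ℝ, ε = c / 4 * (ρ * √ρ) * N := ⟨_, rfl⟩
    have hε0 : 0 < ε := by rw [hε]; positivity
    obtain ⟨Φ, hΦ, hEΦ⟩ := approx hS hK hP hY hμ hv hvR hRL hvf hε0 φ hφ hφ1 (by
      rw [← hw]; exact hfin)
    rw [← hw] at hEΦ
    have hK2 : 2 * (N : ℝ≥0∞) * ∫⁻ z, K z ≤ ENNReal.ofReal (2 * N * (c / 8 * (ρ * √ρ))) := by
      rw [ENNReal.ofReal_mul (by positivity), ENNReal.ofReal_mul (by norm_num)]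
      simp only [ENNReal.ofReal_ofNat, ENNReal.ofReal_natCast]
      gcongr
    rw [hE]
    calc ENNReal.ofReal μ * kinA Ψ + potA v Ψ ≤ enN (ENNReal.ofReal μ) K v Ψ :=
          enN_le_K _ _ _ _
      _ ≤ enN (ENNReal.ofReal μ) K v Φ + ENNReal.ofReal e := hnear Φ hΦ
      _ ≤ (enN (ENNReal.ofReal μ) 0 v Φ + 2 * N * ∫⁻ z, K z) + ENNReal.ofReal e := by
          gcongr
          exact enN_K_le _ _ _ _ hΦ.meas hΦ.norm hKm
      _ ≤ ((kinE (μ * (2 * Real.pi / L) ^ 2) φ + potE (perPot w L) φ + ENNReal.ofReal ε) +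
          ENNReal.ofReal (2 * N * (c / 8 * (ρ * √ρ)))) +
          ENNReal.ofReal (c / 8 * (ρ * √ρ) * N) := by
          gcongr
      _ = kinE (μ * (2 * Real.pi / L) ^ 2) φ + potE (perPot w L) φ +
          ENNReal.ofReal (ε + 2 * N * (c / 8 * (ρ * √ρ)) + c / 8 * (ρ * √ρ) * N) := by
          rw [ENNReal.ofReal_add (by positivity) (by positivity),
            ENNReal.ofReal_add (by positivity) (by positivity)]
          ring
      _ ≤ kinE (μ * (2 * Real.pi / L) ^ 2) φ + potE (perPot w L) φ +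
          ENNReal.ofReal (c * (ρ * √ρ) * N) := by
          gcongr
          rw [hε]
          have : 0 < c * (ρ * √ρ) * N := by positivity
          nlinarith))
  have h4 : 0 < c * √ρ * N := by positivity
  refine ⟨le_trans (ENNReal.ofReal_le_ofReal (by linarith)) key.1,
    key.2.trans (ENNReal.ofReal_le_ofReal (by linarith))⟩

end

end Pool.Agent.U508.TD.A
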