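import Pool.Agent.W761.CB.Stms
import Pool.Agent.H751R2.LHY.Defs

/-!
# Two-sided bounds on the depletion: statements of the packages

Translation between the wave functions on the torus of side `L` (`Tor 3 L`, files `W761`) and on the
unit torus (`Cfg N`, files `H751R2/LHY`).
-/

set_option autoImplicit false

open MeasureTheory UnitAddTorus
open scoped ENNReal

namespace Pool.Agent.U508.TD

open Pool.Agent.W761.CB Pool.Agent.H751R2.LHY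

noncomputable section

/-- the map `y ↦ L y` from the unit circle to the circle of length `L` -/
def sc (L : ℝ) [hL : Fact (0 < L)] : UnitAddCircle ≃+ AddCircle L :=
  AddCircle.equivAddCircle 1 L one_ne_zero (ne_of_gt hL.out)

/-- the map `y ↦ L y` on configurations -/
def up (L : ℝ) [Fact (0 < L)] {N : ℕ} (y : Cfg N) : Fin N → Tor 3 L :=
  fun i a => sc L (y (i, a))

/-- the inverse map -/
def lo (L : ℝ) [Fact (0 < L)] {N : ℕ} (x : Fin N → Tor 3 L) : Cfg N :=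
  fun p => (sc L).symm (x p.1 p.2)

/-- the rescaled wave function `L^(3N/2) Ψ (L y)` -/
def dn (L : ℝ) [Fact (0 < L)] {N : ℕ} (Ψ : (Fin N → Tor 3 L) → ℂ) : Cfg N → ℂ :=
  fun y => ((Real.sqrt (L ^ (3 * N)) : ℝ) : ℂ) * Ψ (up L y)

/-- kinetic energy of a wave function on the torus -/
def kinA {L : ℝ} [Fact (0 < L)] {N : ℕ} (Ψ : (Fin N → Tor 3 L) → ℂ) : ℝ≥0∞ :=
  ∑ i : Fin N, ∑ c : Fin 3, ⨆ k : ℕ, 4 ^ k *
    ∫⁻ x, ‖Ψ (Function.update x i (x i + ec L c ((2 : ℝ)⁻¹ ^ k))) - Ψ x‖ₑ ^ 2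

/-- potential energy of a wave function on the torus -/
def potA {L : ℝ} [Fact (0 < L)] {N : ℕ} (v : ℝ → ℝ≥0∞) (Ψ : (Fin N → Tor 3 L) → ℂ) : ℝ≥0∞ :=
  ∫⁻ x, (∑ i : Fin N, ∑ j ∈ Finset.univ.filter fun j => i < j, v (tdist (x i) (x j))) *
    ‖Ψ x‖ₑ ^ 2

/-- **SCALE** -/
def S_SCALE : Prop := ∀ (L : ℝ) [Fact (0 < L)] (N : ℕ),
  Measurable (up L : Cfg N → (Fin N → Tor 3 L)) ∧
  Measurable (lo L : (Fin N → Tor 3 L) → Cfg N) ∧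
  (volume : Measure (Cfg N)).map (up L) =
    ENNReal.ofReal ((L ^ (3 * N))⁻¹) • (volume : Measure (Fin N → Tor 3 L))

/-- **PARS** (Parseval for translations, on the unit torus only) -/
def S_PARS : Prop := ∀ (N : ℕ) (ψ : Cfg N → ℂ), MemLp ψ 2 → ∀ h : Cfg N,
  ∫⁻ y, ‖ψ (y + h) - ψ y‖ₑ ^ 2 =
    ∑' M : Fin N → Mom, ENNReal.ofReal (‖mFourier (unc M) h - 1‖ ^ 2 * ‖coef ψ M‖ ^ 2)

/-- **SUPK** (`θ = 2 π n / L`, the difference quotients of `e^{i θ x}`) -/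
def S_SUPK : Prop := ∀ (ι : Type) [Countable ι] (θ : ι → ℝ) (a : ι → ℝ≥0∞),
  ⨆ k : ℕ, 4 ^ k * ∑' i, ENNReal.ofReal
      (‖Complex.exp ((θ i * (2 : ℝ)⁻¹ ^ k : ℝ) * Complex.I) - 1‖ ^ 2) * a i =
    ∑' i, ENNReal.ofReal (θ i ^ 2) * a i

/-- **KIN** -/
def S_KIN : Prop := ∀ (L : ℝ) [Fact (0 < L)] (N : ℕ) (Ψ : (Fin N → Tor 3 L) → ℂ),
  Measurable Ψ → ∫⁻ x, ‖Ψ x‖ₑ ^ 2 = 1 →
  kinA Ψ = kinE ((2 * Real.pi / L) ^ 2) (dn L Ψ)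

/-- **POT** -/
def S_POT : Prop := ∀ (L : ℝ) [Fact (0 < L)] (N : ℕ) (v : ℝ → ℝ≥0∞) (R : ℝ)
  (Ψ : (Fin N → Tor 3 L) → ℂ), Measurable v → (∀ r, R < r → v r = 0) → 2 * R < L →
  ∫⁻ z : Fin 3 → ℝ, v (el z) ≠ ⊤ → Measurable Ψ →
  potA v Ψ = potE (perPot (fun z => (v (el z)).toReal) L) (dn L Ψ)

/-- **COND** -/
def S_COND : Prop := ∀ (L : ℝ) [Fact (0 < L)] (N : ℕ) (Ψ : (Fin N → Tor 3 L) → ℂ),
  Measurable Ψ → ∫⁻ x, ‖Ψ x‖ₑ ^ 2 = 1 →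
  condN Ψ = (occE (dn L Ψ) (fun n => n = 0)).toReal

/-- **SYM** (replace `Φ` by `(1/N! ∑_π |Φ (x ∘ π)|²)^(1/2)`) -/
def S_SYM : Prop := ∀ (L : ℝ) [Fact (0 < L)] (N : ℕ) (v : ℝ → ℝ≥0∞)
  (Φ : (Fin N → Tor 3 L) → ℂ), Measurable v → Measurable Φ → ∫⁻ x, ‖Φ x‖ₑ ^ 2 = 1 →
  ∃ Φ' : (Fin N → Tor 3 L) → ℂ, IsWf2 Φ' ∧ kinA Φ' ≤ kinA Φ ∧ potA v Φ' ≤ potA v Φ

end

end Pool.Agent.U508.TD
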