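import Pool.Agent.U508.TD.Stm

/-!
# Two-sided bounds on the depletion: the number of particles with a given momentum
-/

set_option autoImplicit false

open MeasureTheory UnitAddTorus
open scoped ENNReal

namespace Pool.Agent.U508.TD

open Pool.Agent.W761.CB Pool.Agent.H751R2.LHY

noncomputable section

/-- the number of particles with momentum `2 π n / L`,
`L^(-3) ∑_i ∫∫ conj (Ψ x) Ψ(x with x_i replaced by y) e^{2 π i n·(x_i - y) / L} dy dx` -/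
def momN {L : ℝ} {N : ℕ} [Fact (0 < L)] (Ψ : (Fin N → Tor 3 L) → ℂ) (n : Fin 3 → ℤ) : ℝ :=
  (L ^ 3)⁻¹ * ∑ i : Fin N, ∫ x, ∫ y,
    ((starRingEnd ℂ) (Ψ x) * Ψ (Function.update x i y) * ∏ a, fourier (n a) (x i a - y a)).re

/-- **MOM** -/
def S_MOM : Prop := ∀ (L : ℝ) [Fact (0 < L)] (N : ℕ) (Ψ : (Fin N → Tor 3 L) → ℂ)
  (n : Fin 3 → ℤ), Measurable Ψ → ∫⁻ x, ‖Ψ x‖ₑ ^ 2 = 1 →
  momN Ψ n = (occE (dn L Ψ) (fun k => k = n)).toReal

end

end Pool.Agent.U508.TD
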