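import Pool.Agent.U508.TD.Low
import Pool.Agent.U508.TD.Stm2
import Pool.Agent.H728R2.LHY.Gen
import Pool.Agent.Y656.FinI

/-!
# Two-sided bounds on the depletion: the final form
-/

set_option autoImplicit false

open MeasureTheory UnitAddTorus
open scoped ENNReal

namespace Pool.Agent.U508.TD.A

open Pool.Agent.W761.CB Pool.Agent.H751R2.LHY

noncomputable section

lemma occE_fin {N : ℕ} {ψ : Cfg N → ℂ} (hψ : MemLp ψ 2) (P : Mom → Prop) [DecidablePred P] :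
    occE ψ P ≠ ⊤ := by
  have h1 := Gn.coef_hasSum hψ
  have h2 : Summable fun M : Fin N → Mom => (N : ℝ) * ‖coef ψ M‖ ^ 2 := h1.summable.mul_left _
  refine ne_top_of_le_ne_top h2.tsum_ofReal_ne_top ?_
  unfold occE
  refine ENNReal.tsum_le_tsum fun M => ENNReal.ofReal_le_ofReal ?_
  refine mul_le_mul_of_nonneg_right ?_ (by positivity)
  have := Finset.card_filter_le (Finset.univ : Finset (Fin N)) (fun i => P (M i))
  rw [Finset.card_univ, Fintype.card_fin] at this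
  exact_mod_cast this

lemma occE_sum {N : ℕ} (ψ : Cfg N → ℂ) (P : Mom → Prop) [DecidablePred P] (F : Finset Mom)
    (hF : ∀ n, n ∈ F ↔ P n) : occE ψ P = ∑ n ∈ F, occE ψ (fun k => k = n) := by
  unfold occE
  rw [← Summable.tsum_finsetSum (fun _ _ => ENNReal.summable)]
  refine tsum_congr fun M => ?_
  rw [← ENNReal.ofReal_sum_of_nonneg (fun n _ => by positivity), ← Finset.sum_mul]
  congr 2
  have h1 : (Finset.univ.filter fun i => P (M i)) = Finset.univ.filter fun i => M i ∈ F := by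
    ext i; simp [hF]
  rw [h1]
  have h2 := Finset.card_eq_sum_card_fiberwise (s := Finset.univ.filter fun i => M i ∈ F)
    (t := F) (f := M) (fun i hi => by simpa using hi)
  rw [h2]
  push_cast
  refine Finset.sum_congr rfl fun n hn => ?_
  congr 1
  congr 1
  ext i
  simp only [Finset.mem_filter, Finset.mem_univ, true_and]
  constructor
  · rintro ⟨_, h⟩; exact h
  · rintro h; exact ⟨by rw [h]; exact hn, h⟩

lemma momN_zero {L : ℝ} [Fact (0 < L)] {N : ℕ} (Ψ : (Fin N → Tor 3 L) → ℂ) :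
    momN Ψ 0 = condN Ψ := by
  unfold momN condN
  simp

lemma box_fin (t B : ℝ) (ht : 0 < t) :
    {n : Fin 3 → ℤ | n ≠ 0 ∧ t * ∑ a, (n a : ℝ) ^ 2 ≤ B}.Finite := by
  refine (Set.finite_Icc (fun _ : Fin 3 => -⌈B / t⌉) (fun _ => ⌈B / t⌉)).subset ?_
  rintro n ⟨_, hn⟩
  have h1 : ∑ a, (n a : ℝ) ^ 2 ≤ B / t := by
    rw [le_div_iff₀ ht]; linarith
  have h2 : ∀ a, |n a| ≤ ⌈B / t⌉ := by
    intro a
    have h3 : (n a : ℝ) ^ 2 ≤ ∑ a, (n a : ℝ) ^ 2 :=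
      Finset.single_le_sum (f := fun a => (n a : ℝ) ^ 2) (fun _ _ => sq_nonneg _)
        (Finset.mem_univ a)
    have h4 : |n a| ≤ n a ^ 2 := by
      have : |n a| ≤ |n a| ^ 2 := by
        rcases eq_or_ne (n a) 0 with h | h
        · simp [h]
        · have : 1 ≤ |n a| := Int.one_le_abs h
          nlinarith
      rwa [sq_abs] at this
    have h5 : ((|n a| : ℤ) : ℝ) ≤ (⌈B / t⌉ : ℝ) := by
      have h6 : ((|n a| : ℤ) : ℝ) ≤ ((n a ^ 2 : ℤ) : ℝ) := by exact_mod_cast h4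
      push_cast at h6 ⊢
      exact (h6.trans (h3.trans h1)).trans (Int.le_ceil _)
    exact_mod_cast h5
  exact ⟨fun a => (abs_le.1 (h2 a)).1, fun a => (abs_le.1 (h2 a)).2⟩

theorem two (hS : S_SCALE) (hK : S_KIN) (hP : S_POT) (hM : S_MOM) (hY : S_SYM)
    (μ σ c R₀ : ℝ) (hμ : 0 < μ) (hσ : 0 < σ) (hσ3 : σ < 3) (hc : 0 < c) (v : ℝ → ℝ≥0∞)
    (hv : Measurable v) (hvR : ∀ r, R₀ < r → v r = 0)
    (hv0 : ∫⁻ z : Fin 3 → ℝ, v (el z) ≠ 0) (hvf : ∫⁻ z : Fin 3 → ℝ, v (el z) ≠ ⊤) :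
    ∃ c₀ C₀ ρ₀ : ℝ, 0 < c₀ ∧ 0 < C₀ ∧ 0 < ρ₀ ∧ ∀ ρ : ℝ, 0 < ρ → ρ ≤ ρ₀ →
      ∃ c₁ L₀ : ℝ, 0 < c₁ ∧
      ∀ (L : ℝ) [Fact (0 < L)] (K : (Fin 3 → ℝ) → ℝ≥0∞), L₀ ≤ L → Measurable K →
      ∫⁻ z, K z ≤ ENNReal.ofReal (c₀ * (ρ * √ρ)) →
      (∀ z, ENNReal.ofReal (c * ρ ^ (7 / 2 + 1 / 3024 : ℝ) * (1 + √ρ * el z) ^ (-(3 + σ))) ≤ K z) →
      ∀ N : ℕ, (N : ℝ) = ρ * L ^ 3 → ∀ Ψ : (Fin N → Tor 3 L) → ℂ, IsWf2 Ψ →
      (∀ Φ : (Fin N → Tor 3 L) → ℂ, IsWf Φ →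
        enN (ENNReal.ofReal μ) K v Ψ ≤ enN (ENNReal.ofReal μ) K v Φ +
          ENNReal.ofReal (c₁ * L ^ (3 - σ))) →
      (1 - ρ ^ (1 / 3024 : ℝ)) * N ≤ condN Ψ ∧ condN Ψ ≤ (1 - c₀ * √ρ) * N ∧
      ∃ F : Finset (Fin 3 → ℤ),
        (∀ n, n ∈ F ↔ n ≠ 0 ∧ (2 * Real.pi / L) ^ 2 * ∑ a, (n a : ℝ) ^ 2 ≤ C₀ * ρ) ∧
        c₀ * √ρ * N ≤ ∑ n ∈ F, momN Ψ n := by
  obtain ⟨c₀, C₀, ρ₁, hc₀, hC₀, hρ₁, hlow⟩ := low hS hK hP hY hμ hv hvR hv0 hvf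
  obtain ⟨ρ₂, hρ₂, hup⟩ := Pool.Agent.Y656.weakI 3 le_rfl μ σ c R₀ (1 / 3024) hμ hσ
    (by exact_mod_cast hσ3) (by norm_num) hc v hv hvR hv0 hvf
  refine ⟨c₀, C₀, min ρ₁ ρ₂, hc₀, hC₀, by positivity, ?_⟩
  intro ρ hρ hρ0
  obtain ⟨hcs, L₁, hL₁, hlow⟩ := hlow ρ hρ (hρ0.trans (min_le_left _ _))
  obtain ⟨c₂, L₂, hc₂, hup⟩ := hup ρ hρ (hρ0.trans (min_le_right _ _))
  have hsρ : 0 < √ρ := Real.sqrt_pos.2 hρ
  refine ⟨min c₂ (c₀ * (ρ * √ρ) * ρ), max L₁ L₂, by positivity, ?_⟩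
  intro L _ K hL hKm hKs hKl N hN Ψ hΨ hnear
  have hL0 : 0 < L := Fact.out
  have hL1 : 1 ≤ L := hL₁.trans ((le_max_left _ _).trans hL)
  have hN0 : (0 : ℝ) < N := by rw [hN]; positivity
  have hmem := memLp_of (meas_dn hS hΨ.meas) (by rw [norm_dn hS Ψ hΨ.meas]; exact hΨ.norm)
  have hlo := hlow L K ((le_max_left _ _).trans hL) hKm hKs N hN Ψ hΨ
    (min c₂ (c₀ * (ρ * √ρ) * ρ) * L ^ (3 - σ)) (by
      have h1 : L ^ (3 - σ) ≤ L ^ (3 : ℝ) :=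
        Real.rpow_le_rpow_of_exponent_le hL1 (by linarith)
      rw [show (3 : ℝ) = ((3 : ℕ) : ℝ) by norm_num, Real.rpow_natCast] at h1
      calc min c₂ (c₀ * (ρ * √ρ) * ρ) * L ^ (3 - σ) ≤ (c₀ * (ρ * √ρ) * ρ) * L ^ 3 := by
            refine mul_le_mul (min_le_right _ _) (by exact_mod_cast h1) (by positivity)
              (by positivity)
        _ = c₀ * (ρ * √ρ) * N := by rw [hN]; ring) hnear
  have hupp := hup L K ((le_max_right _ _).trans hL) hKm (by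
      calc ∫⁻ z, K z * ENNReal.ofReal (min 1 (el z ^ 2)) ≤ ∫⁻ z, K z * 1 := by
            refine lintegral_mono fun z => ?_
            gcongr
            rw [ENNReal.ofReal_le_one]
            exact min_le_left _ _
        _ = ∫⁻ z, K z := by simp
        _ ≤ ENNReal.ofReal (c₀ * (ρ * √ρ)) := hKs
        _ ≤ ENNReal.ofReal ρ := ENNReal.ofReal_le_ofReal (by nlinarith)) (by
      intro z
      have h := hKl z
      convert h using 5 <;> norm_num) N (by rw [hN]; nlinarith [pow_pos hL0 3, mul_pos hρ (pow_pos hL0 3)])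
      (le_of_eq hN) Ψ hΨ (by
      intro Φ hΦ
      refine (hnear Φ hΦ).trans ?_
      have hLx : L ^ (3 - σ) = L ^ (((3 : ℕ) : ℝ) - σ) := by norm_num
      rw [hLx]
      exact add_le_add le_rfl (ENNReal.ofReal_le_ofReal
        (mul_le_mul_of_nonneg_right (min_le_left _ _) (by positivity))))
  have hm0 : condN Ψ = (occE (dn L Ψ) (fun n => n = 0)).toReal := by
    rw [← momN_zero]; exact hM L N Ψ 0 hΨ.meas hΨ.norm
  refine ⟨hupp, ?_, ?_⟩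
  · rw [hm0]
    have h1 : 0 ≤ (1 - c₀ * √ρ) * N := mul_nonneg (by linarith) hN0.le
    have h3 := ENNReal.toReal_mono ENNReal.ofReal_ne_top hlo.2
    rwa [ENNReal.toReal_ofReal h1] at h3
  · have hfin := box_fin ((2 * Real.pi / L) ^ 2) (C₀ * ρ) (by positivity)
    have hF : ∀ n, n ∈ hfin.toFinset ↔
        n ≠ 0 ∧ (2 * Real.pi / L) ^ 2 * ∑ a, (n a : ℝ) ^ 2 ≤ C₀ * ρ := fun n => by simp
    refine ⟨hfin.toFinset, hF, ?_⟩
    have h1 : ENNReal.ofReal (c₀ * √ρ * N) ≤ occE (dn L Ψ) (fun n => n ≠ 0 ∧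
        (2 * Real.pi / L) ^ 2 * ∑ a, (n a : ℝ) ^ 2 ≤ C₀ * ρ) := hlo.1
    rw [occE_sum (dn L Ψ) _ hfin.toFinset hF] at h1
    have h2 := ENNReal.toReal_mono
      (ENNReal.sum_ne_top.2 fun n _ => occE_fin hmem (fun k => k = n)) h1
    rw [ENNReal.toReal_ofReal (by positivity),
      ENNReal.toReal_sum (fun n _ => occE_fin hmem (fun k => k = n))] at h2
    refine h2.trans (le_of_eq (Finset.sum_congr rfl fun n _ => ?_))
    exact (hM L N Ψ n hΨ.meas hΨ.norm).symm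

end

end Pool.Agent.U508.TD.A
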